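import Pool.Agent.H94.CC.Stmts

/-!
Module CHAIN: chains of conditions.
-/

set_option linter.unusedVariables false
set_option linter.unusedSectionVars false
set_option synthInstance.maxSize 100000

namespace SW.CC

section
variable {M : Type} [SetStr M] [ZF M]

/-- recursion on membership, abstractly -/
theorem exists_rec {F : M → M → M} (hF : Fn2 F) :
    ∃ V : M → M, Fn1 V ∧ ∀ j, V j = F j (gr j V) :=
  ⟨fun j => mrec F j, mrec_df, mrec_eq hF⟩

theorem img_congr {x : M} {f g : M → M} (hf : Fn1 f) (hg : Fn1 g) (h : ∀ y, E y x → f y = g y) :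
    img x f = img x g := by
  refine ext fun z => ?_
  rw [mem_img' hf, mem_img' hg]
  constructor
  · rintro ⟨y, hy, rfl⟩
    exact ⟨y, hy, h y hy⟩
  · rintro ⟨y, hy, rfl⟩
    exact ⟨y, hy, (h y hy).symm⟩

theorem gr_congr {x : M} {f g : M → M} (hf : Fn1 f) (hg : Fn1 g) (h : ∀ y, E y x → f y = g y) :
    gr x f = gr x g := by
  unfold gr
  exact img_congr inferInstance inferInstance fun y hy => by rw [h y hy]

theorem UP_congr {p0 x : M} {f g : M → M} (hf : Fn1 f) (hg : Fn1 g)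
    (h : ∀ y, E y x → f y = g y) : UP p0 x f = UP p0 x g := by
  unfold UP
  rw [img_congr (f := fun i => fst (f i)) (g := fun i => fst (g i)) inferInstance inferInstance
    (fun y hy => by rw [h y hy]),
    img_congr (f := fun i => snd (f i)) (g := fun i => snd (g i)) inferInstance inferInstance
    (fun y hy => by rw [h y hy])]

theorem mem_fst_UP {p0 j z : M} {g : M → M} (hg : Fn1 g) :
    E z (fst (UP p0 j g)) ↔ E z (fst p0) ∨ ∃ i, E i j ∧ E z (fst (g i)) := by
  unfold UP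
  rw [fst_opair, mem_bun, mem_sUn]
  refine or_congr Iff.rfl ?_
  constructor
  · rintro ⟨y, hy, hz⟩
    rw [mem_img' inferInstance] at hy
    obtain ⟨i, hi, rfl⟩ := hy
    exact ⟨i, hi, hz⟩
  · rintro ⟨i, hi, hz⟩
    exact ⟨_, (mem_img' inferInstance).2 ⟨i, hi, rfl⟩, hz⟩

theorem mem_snd_UP {p0 j z : M} {g : M → M} (hg : Fn1 g) :
    E z (snd (UP p0 j g)) ↔ E z (snd p0) ∨ ∃ i, E i j ∧ E z (snd (g i)) := by
  unfold UP
  rw [snd_opair, mem_bun, mem_sUn]
  refine or_congr Iff.rfl ?_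
  constructor
  · rintro ⟨y, hy, hz⟩
    rw [mem_img' inferInstance] at hy
    obtain ⟨i, hi, rfl⟩ := hy
    exact ⟨i, hi, hz⟩
  · rintro ⟨i, hi, hz⟩
    exact ⟨_, (mem_img' inferInstance).2 ⟨i, hi, rfl⟩, hz⟩

theorem CP_fst {κ p : M} (h : E p (CP κ)) : Sub (fst p) (pow κ) ∧ Img κ (fst p) ∧
    ∀ e : M, E e (snd p) → Sub e (prod (fst p) two) := by
  have := CP_pair h
  rw [this, mem_CP'] at h
  exact ⟨h.1, h.2.1, h.2.2.1⟩

/-- a stronger pair with the right shape is a condition -/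
theorem CP_of_le' {κ p q : M} (hq : E q (CP κ)) (h : CLe p q) (hp : p = opair (fst p) (snd p))
    (h1 : Sub (fst p) (pow κ)) (h2 : Img κ (fst p))
    (h3 : ∀ e : M, E e (snd p) → Sub e (prod (fst p) two)) : E p (CP κ) := by
  obtain ⟨b, H, rfl, g1, g2, g3, g4⟩ := mem_CP.1 hq
  rw [hp] at h ⊢
  exact CP_of_le hq h h1 h2 h3

theorem UP_pair (p0 j : M) (g : M → M) :
    UP p0 j g = opair (fst (UP p0 j g)) (snd (UP p0 j g)) := by
  unfold UP
  rw [fst_opair, snd_opair]

/-- componentwise unions of conditions are conditions if they are below the first one -/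
theorem UP_mem {κ p0 j : M} {g : M → M} (hk : KSm κ) (hg : Fn1 g) (hj : Sub j κ)
    (h0 : E p0 (CP κ)) (h : ∀ i, E i j → E (g i) (CP κ)) (hle : CLe (UP p0 j g) p0) :
    E (UP p0 j g) (CP κ) := by
  refine CP_of_le' h0 hle (UP_pair p0 j g) ?_ ?_ ?_
  · intro z hz
    rcases (mem_fst_UP hg).1 hz with hz | ⟨i, hi, hz⟩
    · exact (CP_fst h0).1 z hz
    · exact (CP_fst (h i hi)).1 z hz
  · have : fst (UP p0 j g) = bun (fst p0) (sUn (img j (fun i => fst (g i)))) := by
      unfold UP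
      rw [fst_opair]
    rw [this]
    exact hk.bun (CP_fst h0).2.1 (hk.iUn (fun i => fst (g i)) inferInstance (hk.le hj)
      fun i hi => (CP_fst (h i hi)).2.1)
  · intro e he z hz
    rcases (mem_snd_UP hg).1 he with he | ⟨i, hi, he⟩
    · obtain ⟨x, y, hx, hy, rfl⟩ := mem_prod'.1 ((CP_fst h0).2.2 e he z hz)
      exact mem_prod.2 ⟨(mem_fst_UP hg).2 (Or.inl hx), hy⟩
    · obtain ⟨x, y, hx, hy, rfl⟩ := mem_prod'.1 ((CP_fst (h i hi)).2.2 e he z hz)
      exact mem_prod.2 ⟨(mem_fst_UP hg).2 (Or.inr ⟨i, hi, hx⟩), hy⟩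

end

theorem cc_chain (hchu : CHUStmt) (hksm : KSMStmt) (hacf : ACFStmt) : CHAINStmt := by
  intro M _ _ κ U θ p0 Y Nx hm hN hθ hθκ hp0 hstep
  have hk : KSm κ := hksm M κ U hm
  obtain ⟨g0, hg0⟩ := hacf M (prod (CP κ) Y)
  have hNi : ∀ {n : ℕ} {t s u w : (Fin n → M) → M} [DfT t] [DfT s] [DfT u] [DfT w],
      Df (fun v => Nx (t v) (s v) (u v) (w v)) := fun {n t s u w} ht hs hu hw =>
    Df.comp4 hN ht hs hu hw
  have hF : Fn2 (fun j h : M => app g0 (sep (prod (CP κ) Y) (fun z =>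
      CLe (fst z) (UP p0 j (fun i => fst (app h i))) ∧
      Nx j (UP p0 j (fun i => fst (app h i))) (gr j (fun i => snd (app h i))) z))) := by
    infer_instance
  obtain ⟨V, hV, hVe'⟩ := exists_rec hF
  have hVe : ∀ j, V j = app g0 (sep (prod (CP κ) Y) (fun z =>
      CLe (fst z) (UP p0 j (fun i => fst (V i))) ∧
      Nx j (UP p0 j (fun i => fst (V i))) (gr j (fun i => snd (V i))) z)) := by
    intro j
    refine (hVe' j).trans ?_
    have e1 : UP p0 j (fun i => fst (app (gr j V) i)) = UP p0 j (fun i => fst (V i)) :=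
      UP_congr inferInstance inferInstance fun i hi => by rw [app_gr hV hi]
    have e2 : gr j (fun i => snd (app (gr j V) i)) = gr j (fun i => snd (V i)) :=
      gr_congr inferInstance inferInstance fun i hi => by rw [app_gr hV hi]
    rw [e1, e2]
  -- the properties of the values
  have key : ∀ j, E j θ → (E (V j) (prod (CP κ) Y) ∧ CLe (fst (V j)) (UP p0 j (fun i => fst (V i))) ∧
      Nx j (UP p0 j (fun i => fst (V i))) (gr j (fun i => snd (V i))) (V j)) ∧
      E (UP p0 j (fun i => fst (V i))) (CP κ) ∧ CLe (UP p0 j (fun i => fst (V i))) p0 ∧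
      ∀ i, E i j → CLe (UP p0 j (fun i => fst (V i))) (fst (V i)) := by
    intro j
    refine mem_induction (C := fun j : M => E j θ → (E (V j) (prod (CP κ) Y) ∧
      CLe (fst (V j)) (UP p0 j (fun i => fst (V i))) ∧
      Nx j (UP p0 j (fun i => fst (V i))) (gr j (fun i => snd (V i))) (V j)) ∧
      E (UP p0 j (fun i => fst (V i))) (CP κ) ∧ CLe (UP p0 j (fun i => fst (V i))) p0 ∧
      ∀ i : M, E i j → CLe (UP p0 j (fun i => fst (V i))) (fst (V i))) inferInstance ?_ j
    intro j ih hj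
    have hi : ∀ i, E i j → E i θ := fun i hi => hθ.trans hj hi
    obtain ⟨u1, u2⟩ := hchu M p0 j (fun i => fst (V i)) inferInstance (hθ.mem hj)
      (fun i hij => (ih i hij (hi i hij)).1.2.1)
    have hVi : ∀ i, E i j → E (fst (V i)) (CP κ) ∧ E (snd (V i)) Y := fun i hij => by
      have h1 := (ih i hij (hi i hij)).1.1
      obtain ⟨x, y, hx, hy, hxy⟩ := mem_prod'.1 h1
      rw [hxy, fst_opair, snd_opair]
      exact ⟨hx, hy⟩
    have u3 : E (UP p0 j (fun i => fst (V i))) (CP κ) :=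
      UP_mem hk inferInstance (fun i hij => hθκ i (hi i hij)) hp0 (fun i hij => (hVi i hij).1) u1
    refine ⟨?_, u3, u1, u2⟩
    obtain ⟨p', y, h1, h2, h3, h4⟩ := hstep j (UP p0 j (fun i => fst (V i)))
      (gr j (fun i => snd (V i))) hj u3 u1 (fun i hij => by
        rw [app_gr inferInstance hij]
        exact (hVi i hij).2)
    have e3 : gr j (fun i => app (gr j (fun i => snd (V i))) i) = gr j (fun i => snd (V i)) :=
      gr_congr inferInstance inferInstance fun i hij => by rw [app_gr inferInstance hij]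
    rw [e3] at h4
    have h5 := hg0 (sep (prod (CP κ) Y) (fun z =>
      CLe (fst z) (UP p0 j (fun i => fst (V i))) ∧
      Nx j (UP p0 j (fun i => fst (V i))) (gr j (fun i => snd (V i))) z))
      (fun z hz => ((mem_sep' inferInstance).1 hz).1)
      ⟨opair p' y, (mem_sep' inferInstance).2 ⟨mem_prod.2 ⟨h1, h3⟩, by rwa [fst_opair], h4⟩⟩
    rw [← hVe j] at h5
    exact (mem_sep' inferInstance).1 h5
  have hVi : ∀ i, E i θ → E (fst (V i)) (CP κ) ∧ E (snd (V i)) Y ∧
      V i = opair (fst (V i)) (snd (V i)) := fun i hij => by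
    have h1 := (key i hij).1.1
    obtain ⟨x, y, hx, hy, hxy⟩ := mem_prod'.1 h1
    rw [hxy, fst_opair, snd_opair]
    exact ⟨hx, hy, rfl⟩
  obtain ⟨u1, u2⟩ := hchu M p0 θ (fun i => fst (V i)) inferInstance hθ
    (fun i hij => (key i hij).1.2.1)
  have u3 : E (UP p0 θ (fun i => fst (V i))) (CP κ) :=
    UP_mem hk inferInstance hθκ hp0 (fun i hij => (hVi i hij).1) u1
  refine ⟨gr θ (fun j => UP p0 j (fun i => fst (V i))), gr θ (fun j => fst (V j)),
    gr θ (fun j => snd (V j)), UP p0 θ (fun i => fst (V i)), u3, u1, fun j hj => ?_⟩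
  obtain ⟨⟨k1, k2, k3⟩, k4, k5, k6⟩ := key j hj
  have e3 : gr j (fun i => app (gr θ (fun i => snd (V i))) i) = gr j (fun i => snd (V i)) :=
    gr_congr inferInstance inferInstance fun i hij => by
      rw [app_gr inferInstance (hθ.trans hj hij)]
  rw [e3, app_gr inferInstance hj, app_gr inferInstance hj, app_gr inferInstance hj,
    ← (hVi j hj).2.2]
  exact ⟨k4, k5, (hVi j hj).1, k2, (hVi j hj).2.1, k3, fun i hij => by
    rw [app_gr inferInstance (hθ.trans hj hij)]
    exact k6 i hij, u2 j hj⟩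

end SW.CC
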