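import Pool.Agent.H31.CC.FUN
import Pool.Agent.H94.CC.CHAIN

/-!
Module CTN: the generic family catches all functions on finite sequences.
-/

set_option linter.unusedVariables false
set_option linter.unusedSectionVars false
set_option synthInstance.maxSize 100000

namespace SW.CC

section
variable {M : Type} [SetStr M] [ZF M] {F : FPoset M} {G : M → Prop} [ZF (Ext F G)]

theorem mem_emb_gr (hG : Gen F G) {f : M → M} (hf : Fn1 f) {x : M} {z : Ext F G} :
    E z (emb F G (gr x f)) ↔ ∃ y, E y x ∧ z = opair (emb F G y) (emb F G (f y)) := by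
  constructor
  · intro hz
    obtain ⟨z0, hz0, rfl⟩ := (embF hG).trans _ _ hz
    obtain ⟨y, hy, rfl⟩ := (mem_gr' hf).1 hz0
    exact ⟨y, hy, (traF hG).opair _ _⟩
  · rintro ⟨y, hy, rfl⟩
    rw [← (traF hG).opair, (embF hG).mem]
    exact (mem_gr' hf).2 ⟨y, hy, rfl⟩

theorem app_emb_gr (hG : Gen F G) {f : M → M} (hf : Fn1 f) {x y : M} (hy : E y x) :
    app (emb F G (gr x f)) (emb F G y) = emb F G (f y) := by
  refine the_eq ((mem_emb_gr hG hf).2 ⟨y, hy, rfl⟩) fun w hw => ?_
  obtain ⟨y', hy', e⟩ := (mem_emb_gr hG hf).1 hw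
  obtain ⟨e1, e2⟩ := opair_inj.1 e
  rw [(embF hG).inj] at e1
  rw [e2, e1]

/-- a function of the extension which agrees with one of `M` -/
theorem gr_emb (hG : Gen F G) {f : M → M} (hf : Fn1 f) {h : Ext F G → Ext F G} (hh : Fn1 h)
    {x : M} (e : ∀ y, E y x → h (emb F G y) = emb F G (f y)) :
    gr (emb F G x) h = emb F G (gr x f) := by
  refine ext fun z => ?_
  rw [mem_gr' hh, mem_emb_gr hG hf]
  constructor
  · rintro ⟨y, hy, rfl⟩
    obtain ⟨y0, hy0, rfl⟩ := (embF hG).trans _ _ hy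
    exact ⟨y0, hy0, by rw [e y0 hy0]⟩
  · rintro ⟨y, hy, rfl⟩
    exact ⟨emb F G y, ((embF hG).mem _ _).2 hy, by rw [e y hy]⟩

theorem emb_two (hG : Gen F G) {b : Ext F G} : E b two ↔ E b (emb F G two) := by
  have e0 : emb F G (sing emp) = sing emp := by
    have e1 : (sing emp : Ext F G) = ins emp emp := ext fun z => by
      rw [mem_sing, mem_ins]
      exact ⟨fun h => Or.inr h, fun h => h.resolve_left (not_mem_emp z)⟩
    have e2 : (sing emp : M) = ins emp emp := ext fun z => by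
      rw [mem_sing, mem_ins]
      exact ⟨fun h => Or.inr h, fun h => h.resolve_left (not_mem_emp z)⟩
    rw [e1, e2, (traF hG).ins, (traF hG).emp]
  constructor
  · intro h
    rcases mem_upair.1 h with rfl | rfl
    · rw [← (traF hG).emp, (embF hG).mem]
      exact mem_upair.2 (Or.inl rfl)
    · rw [← e0, (embF hG).mem]
      exact mem_upair.2 (Or.inr rfl)
  · intro h
    obtain ⟨b0, hb0, rfl⟩ := (embF hG).trans _ _ h
    rcases mem_upair.1 hb0 with rfl | rfl
    · rw [(traF hG).emp]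
      exact mem_upair.2 (Or.inl rfl)
    · rw [e0]
      exact mem_upair.2 (Or.inr rfl)

end

theorem cc_ctn (hcatch : CATCHStmt) (hsbn : SBNStmt) (hhgf : HGFStmt) : CTNStmt := by
  intro M _ _ _ κ U G hU hG _ τ hτ
  have ff := semF (CF κ)
  have ef := embF hG
  have tf := traF hG
  have hpow := hsbn M κ U G hU hG
  -- the relevant part of `τ` and its name
  have hfτ : Fn1 (fun u : Ext (CF κ) G => app τ u) := inferInstance
  obtain ⟨τd, hτd⟩ : ∃ τd, mk (CF κ) G τd =
      gr (emb (CF κ) G (pow (prod om (pow κ)))) (fun u => app τ u) := ⟨_, Quot.out_eq _⟩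
  have hτm : ∀ u b, E u (emb (CF κ) G (pow (prod om (pow κ)))) →
      (PairIn u b (mk (CF κ) G τd) ↔ b = app τ u) := by
    intro u b hu
    rw [hτd, pairIn_iff, opair_mem_gr hfτ]
    exact ⟨fun h => h.2, fun h => ⟨hu, h⟩⟩
  -- finite sequences in `M`
  have hfz : ∀ z : M, Fn1 (fun i : M => app z i) := fun z => inferInstance
  obtain ⟨S, hS⟩ : ∃ S : M, ∀ u, E u S ↔ E u (pow (prod om (pow κ))) ∧ ∃ n z : M, E n om ∧
      (∀ i : M, E i (suc n) → E (app z i) (pow κ)) ∧ u = gr (suc n) (fun i => app z i) :=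
    ⟨sep (pow (prod om (pow κ))) (fun u => ∃ n z : M, E n om ∧
      (∀ i : M, E i (suc n) → E (app z i) (pow κ)) ∧ u = gr (suc n) (fun i => app z i)),
      fun u => mem_sep' inferInstance⟩
  have hSmem : ∀ n z : M, E n om → (∀ i : M, E i (suc n) → E (app z i) (pow κ)) →
      E (gr (suc n) (fun i => app z i)) S := by
    intro n z hn hz
    refine (hS _).2 ⟨?_, n, z, hn, hz, rfl⟩
    rw [mem_pow]
    intro w hw
    obtain ⟨i, hi, rfl⟩ := (mem_gr' (hfz z)).1 hw
    exact mem_prod.2 ⟨Ord_om.trans (suc_mem_om hn) hi, hz i hi⟩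
  -- the values of `τ` at the sequences of `M`
  have hval : ∀ n z : M, E n om → (∀ i : M, E i (suc n) → E (app z i) (pow κ)) →
      E (app τ (emb (CF κ) G (gr (suc n) (fun i => app z i)))) two := by
    intro n z hn hz
    have hn' : E (emb (CF κ) G n) om := by
      rw [← tf.om, ef.mem]
      exact hn
    have h1 := hτ (emb (CF κ) G n) (emb (CF κ) G (gr (suc n) (fun i => app z i))) hn' (by
      intro i hi
      rw [← tf.suc] at hi
      obtain ⟨i0, hi0, rfl⟩ := ef.trans _ _ hi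
      rw [app_emb_gr hG (hfz z) hi0, hpow, ef.mem]
      exact hz i0 hi0)
    have h2 : gr (suc (emb (CF κ) G n))
        (fun i => app (emb (CF κ) G (gr (suc n) (fun i => app z i))) i) =
        emb (CF κ) G (gr (suc n) (fun i => app z i)) := by
      rw [← tf.suc]
      exact gr_emb hG (hfz z) inferInstance fun y hy => app_emb_gr hG (hfz z) hy
    rwa [h2] at h1
  -- the forced statement
  have hQ : fun_Q (Ext (CF κ) G)
      (fun i => mk (CF κ) G ((![chk (CF κ) S, chk (CF κ) two, τd] : Fin 3 → M) i)) := by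
    intro u hu
    have hu' : E u (emb (CF κ) G S) := hu
    obtain ⟨u0, hu0, rfl⟩ := ef.trans _ _ hu'
    obtain ⟨h1, n, z, hn, hz, rfl⟩ := (hS u0).1 hu0
    refine ⟨_, (emb_two hG).1 (hval n z hn hz), ?_⟩
    show PairIn (emb (CF κ) G _) _ (mk (CF κ) G τd)
    exact (hτm _ _ ((ef.mem _ _).2 h1)).2 rfl
  obtain ⟨p, hp, hpF⟩ := (ff.truth fun_Q G hG _).1 hQ
  have hpP : E p (CP κ) := hG.sub p hp
  have hD : Cl3 (fun r j y : M => E r (CP κ) ∧
      FS (CF κ) QPr r ![chk (CF κ) j, chk (CF κ) y, τd]) := by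
    have h1 := ff.df QPr
    have h2 : Cl3 (fun r j y : M => FS (CF κ) QPr r ![chk (CF κ) j, chk (CF κ) y, τd]) := by
      have h3 : Df (fun w : Fin 4 → M => FS (CF κ) QPr (w 0) ![w 1, w 2, w 3]) :=
        h1.congr fun w => by
          have : (![w 1, w 2, w 3] : Fin 3 → M) = fun i => w i.succ := by
            funext i; fin_cases i <;> rfl
          rw [this]
      exact h3.comp4 (R := fun a b c d => FS (CF κ) QPr a ![b, c, d])
        (inferInstance : DfT (fun w : Fin 3 → M => w 0))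
        (inferInstance : DfT (fun w : Fin 3 → M => chk (CF κ) (w 1)))
        (inferInstance : DfT (fun w : Fin 3 → M => chk (CF κ) (w 2)))
        (inferInstance : DfT (fun w : Fin 3 → M => τd))
    infer_instance
  obtain ⟨D, hDdef⟩ : ∃ D : M → M → M → Prop, D = fun r j y : M => E r (CP κ) ∧
      FS (CF κ) QPr r ![chk (CF κ) j, chk (CF κ) y, τd] := ⟨_, rfl⟩
  have hD' : Cl3 D := by rw [hDdef]; exact hD
  have hmono : ∀ r r' j y, D r j y → E r' (CP κ) → CLe r' r → D r' j y := by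
    intro r r' j y h1 h2 h3
    rw [hDdef] at h1 ⊢
    exact ⟨h2, fun_mono h1.2 h1.1 h3⟩
  have hdense : ∀ r n z, E r (CP κ) → CLe r p → E n om →
      (∀ i, E i (suc n) → E (app z i) (pow κ)) →
      ∃ r' b, E r' (CP κ) ∧ CLe r' r ∧ E b two ∧ D r' (gr (suc n) (fun i => app z i)) b := by
    intro r n z hr hrp hn hz
    obtain ⟨G', hG', hrG'⟩ := ff.ex r hr
    have ef' := embF hG'
    have hpG' : G' p := hG'.up r p hrG' hpP hrp
    obtain ⟨y, hy, hy'⟩ := hpF G' hG' hpG' (emb (CF κ) G' (gr (suc n) (fun i => app z i)))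
      ((ef'.mem _ S).2 (hSmem n z hn hz))
    obtain ⟨y0, hy0, rfl⟩ := ef'.trans _ _ (hy : E y (emb (CF κ) G' two))
    obtain ⟨s, hs, hsF⟩ := (ff.truth QPr G' hG'
      ![chk (CF κ) (gr (suc n) (fun i => app z i)), chk (CF κ) y0, τd]).1 hy'
    obtain ⟨t, ht, htr, hts⟩ := hG'.dir r s hrG' hs
    refine ⟨t, y0, hG'.sub t ht, htr, hy0, ?_⟩
    rw [hDdef]
    exact ⟨hG'.sub t ht, fun_mono hsF (hG'.sub s hs) hts⟩
  obtain ⟨q, hq, hqp, a, F, z, t, rfl, hzt, heF⟩ := (genF hG).meetB (fun q : M =>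
      ∃ a F z t : M, q = opair a F ∧
      (∀ n : M, E n om → E (app z n) (pow κ) ∧ E (app t n) two ∧
        D q (gr (suc n) (fun i => app z i)) (app t n)) ∧
      E (img om (fun n => opair (app z n) (app t n))) F)
      (by unfold two; infer_instance) p hp (fun p' hp' hp'p => by
    obtain ⟨a, F, z, t, h1, h2, h3, h4⟩ := hcatch M κ U p' D hU hD' hp' hmono
      (fun r n z hr hrp hn hz => hdense r n z hr (hrp.trans hp'p) hn hz)
    exact ⟨opair a F, h1, h2, a, F, z, t, rfl, h3, h4⟩)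
  have hzs : ∀ n, E n om → ∀ i, E i (suc n) → E (app z i) (pow κ) := fun n hn i hi =>
    (hzt i (Ord_om.trans (suc_mem_om hn) hi)).1
  have hvt : ∀ n, E n om → app τ (emb (CF κ) G (gr (suc n) (fun i => app z i))) =
      emb (CF κ) G (app t n) := by
    intro n hn
    have h1 := (hzt n hn).2.2
    rw [hDdef] at h1
    have h2 : PairIn (emb (CF κ) G (gr (suc n) (fun i => app z i))) (emb (CF κ) G (app t n))
      (mk (CF κ) G τd) := h1.2 G hG hq
    exact ((hτm _ _ ((ef.mem _ _).2 ((hS _).1 (hSmem n z hn (hzs n hn))).1)).1 h2).symm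
  have hZ : ∀ n, E n om → app (emb (CF κ) G (gr om (fun i => app z i))) (emb (CF κ) G n) =
      emb (CF κ) G (app z n) := fun n hn => app_emb_gr hG (hfz z) hn
  refine ⟨emb (CF κ) G (gr om (fun i => app z i)), fun n hn => ?_, ?_⟩
  · rw [← tf.om] at hn
    obtain ⟨n0, hn0, rfl⟩ := ef.trans _ _ hn
    rw [hZ n0 hn0, hpow, ef.mem]
    exact (hzt n0 hn0).1
  · refine (hhgf M κ G hG _).2 ⟨a, F, _, hq, heF, ?_⟩
    have hseq : ∀ n, E n om → gr (suc (emb (CF κ) G n))
        (fun i => app (emb (CF κ) G (gr om (fun i => app z i))) i) =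
        emb (CF κ) G (gr (suc n) (fun i => app z i)) := by
      intro n hn
      rw [← tf.suc]
      exact gr_emb hG (hfz z) inferInstance fun y hy =>
        hZ y (Ord_om.trans (suc_mem_om hn) hy)
    refine ext fun w => ?_
    rw [mem_img' inferInstance]
    constructor
    · rintro ⟨n, hn, rfl⟩
      rw [← tf.om] at hn
      obtain ⟨n0, hn0, rfl⟩ := ef.trans _ _ hn
      rw [hZ n0 hn0, hseq n0 hn0, hvt n0 hn0, ← tf.opair, ef.mem, mem_img' inferInstance]
      exact ⟨n0, hn0, rfl⟩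
    · intro hw
      obtain ⟨w0, hw0, rfl⟩ := ef.trans _ _ hw
      obtain ⟨n, hn, rfl⟩ := (mem_img' inferInstance).1 hw0
      refine ⟨emb (CF κ) G n, ?_, ?_⟩
      · rw [← tf.om, ef.mem]
        exact hn
      · rw [hZ n hn, hseq n hn, hvt n hn, tf.opair]

end SW.CC
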