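import Pool.Agent.H94.CC.Defs

/-!
Statements of the modules of project CC.
-/

set_option linter.unusedVariables false
set_option linter.unusedSectionVars false
set_option synthInstance.maxSize 100000

namespace SW.CC

/-! ## Part S: set theory in a model of ZFC with a measure -/

/-- CHS: choice for class relations -/
def CHSStmt : Prop := ∀ (M : Type) [SetStr M] [ZFC M] (a : M) (R : M → M → Prop), Cl2 R →
  (∀ x, E x a → ∃ y, R x y) → ∃ g, ∀ x, E x a → R x (app g x)

/-- ENUM: enumeration of `Y` along a choice function `ch` -/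
def ENUMStmt : Prop := ∀ (M : Type) [SetStr M] [ZF M] (Y : M) (ch : M → M), Fn1 ch →
  (∀ Z, Sub Z Y → (∃ z, E z Z) → E (ch Z) Z) →
  ∃ v f, Ord v ∧ Bij v Y f ∧ ∀ i, E i v → app f i = ch (diff Y (img i (fun j => app f j)))

/-- WELL: every set is in bijection with an ordinal -/
def WELLStmt : Prop := ∀ (M : Type) [SetStr M] [ZFC M] (X : M), ∃ v f, Ord v ∧ Bij v X f

/-- basic facts about a measure -/
structure MFacts {M : Type} [SetStr M] [ZF M] (κ U : M) : Prop where
  full : E κ U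
  nemp : ¬ E emp U
  inter : ∀ {X Y : M}, E X U → E Y U → E (inter X Y) U
  ndiff : ∀ {X : M}, E X U → ¬ E (diff κ X) U
  ordm : ∀ {a : M}, E a κ → Ord a
  suc : ∀ {a : M}, E a κ → E (suc a) κ
  /-- bounded sets are not in `U` -/
  nbdd : ∀ {X a : M}, E a κ → Sub X a → ¬ E X U
  tail : ∀ {a : M}, E a κ → E (diff κ a) U
  /-- classes containing a member of `U` -/
  mono : ∀ {X : M} (C : M → Prop), Cl C → E X U → (∀ z, E z X → C z) → E (sep κ C) U

/-- MSF -/
def MSFStmt : Prop := ∀ (M : Type) [SetStr M] [ZF M] (κ U : M), Meas κ U → MFacts κ U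

/-- small sets, without choice -/
structure SmA {M : Type} [SetStr M] [ZF M] (κ U : M) : Prop where
  sub : ∀ {X Y : M}, Small κ U X → Sub Y X → Small κ U Y
  img : ∀ {X : M} (f : M → M), Fn1 f → Small κ U X → Small κ U (img X f)
  /-- sets which are mapped injectively to a small set -/
  inj : ∀ {X Y : M} (f : M → M), Fn1 f → Small κ U Y → (∀ x, E x X → E (f x) Y) →
    (∀ x x', E x X → E x' X → f x = f x' → x = x') → Small κ U X
  ord : ∀ {v : M}, E v κ → Small κ U v
  om : Small κ U om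
  fin : ∀ {X : M}, Fnt X → Small κ U X
  bun : ∀ {X Y : M}, Small κ U X → Small κ U Y → Small κ U (bun X Y)
  sUn : ∀ {X : M}, Small κ U X → (∀ y, E y X → Small κ U y) → Small κ U (sUn X)
  iUn : ∀ {X : M} (f : M → M), Fn1 f → Small κ U X → (∀ y, E y X → Small κ U (f y)) →
    Small κ U (SW.sUn (SW.img X f))
  /-- the measure is closed under intersections of small families -/
  cmp : ∀ {X : M} (f : M → M), Fn1 f → Small κ U X → (∀ x, E x X → E (f x) U) →
    E (sep κ (fun z => ∀ x : M, E x X → E z (f x))) U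
  nself : ¬ Small κ U κ
  /-- functions from small sets to `κ` are bounded -/
  bnd : ∀ {X : M} (f : M → M), Fn1 f → Small κ U X → (∀ x, E x X → E (f x) κ) →
    ∃ b, E b κ ∧ ∀ x, E x X → E (f x) b
  /-- functions from a tail of `κ` to a small set are not injective -/
  ninj : ∀ {X a : M} (f : M → M), Fn1 f → Small κ U X → E a κ →
    (∀ x, E x κ → ¬ E x a → E (f x) X) →
    ∃ x y, (E x κ ∧ ¬ E x a) ∧ (E y κ ∧ ¬ E y a) ∧ x ≠ y ∧ f x = f y

/-- SMA -/
def SMAStmt : Prop := ∀ (M : Type) [SetStr M] [ZF M] (κ U : M), Meas κ U → SmA κ U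

/-- small sets, with choice -/
structure SmB {M : Type} [SetStr M] [ZF M] (κ U : M) : Prop extends SmA κ U where
  pow : ∀ {X : M}, Small κ U X → Small κ U (pow X)
  prod : ∀ {X Y : M}, Small κ U X → Small κ U Y → Small κ U (prod X Y)
  /-- small sets are in bijection with members of `κ` -/
  bij : ∀ {X : M}, Small κ U X → ∃ v f, E v κ ∧ Bij v X f
  im : ∀ {X : M}, Small κ U X → Img κ X

/-- SMB -/
def SMBStmt : Prop := ∀ (M : Type) [SetStr M] [ZFC M] (κ U : M), Meas κ U → SmB κ U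

/-- LIN: a set which is the increasing union of `κ` small sets injects into `κ` -/
def LINStmt : Prop := ∀ (M : Type) [SetStr M] [ZFC M] (κ U Y : M) (ρ : M → M), Meas κ U →
  Fn1 ρ → (∀ y, E y Y → E (ρ y) κ) →
  (∀ a, E a κ → Small κ U (sep Y (fun y => ¬ E a (ρ y)))) →
  ∃ j, (∀ y, E y Y → E (app j y) κ) ∧
    ∀ y y', E y Y → E y' Y → app j y = app j y' → y = y'

/-- PRJ: `κ × κ` injects into `κ` -/
def PRJStmt : Prop := ∀ (M : Type) [SetStr M] [ZFC M] (κ U : M), Meas κ U →
  ∃ j, (∀ a b, E a κ → E b κ → E (app j (opair a b)) κ) ∧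
    ∀ a b a' b', E a κ → E b κ → E a' κ → E b' κ →
      app j (opair a b) = app j (opair a' b') → a = a' ∧ b = b'

/-- KJ: the set of pairs `(β, y)`, `y` a family of subsets of `β`, injects into `κ` -/
def KJStmt : Prop := ∀ (M : Type) [SetStr M] [ZFC M] (κ U : M), Meas κ U →
  ∃ j, (∀ b y, E b κ → Sub y (pow b) → E (app j (opair b y)) κ) ∧
    ∀ b y b' y', E b κ → Sub y (pow b) → E b' κ → Sub y' (pow b') →
      app j (opair b y) = app j (opair b' y') → b = b' ∧ y = y'

/-- IND: independent families exist -/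
def INDStmt : Prop := ∀ (M : Type) [SetStr M] [ZFC M] (κ U : M), Meas κ U → ∃ A, Indep κ U A

/-- sets which are images of `κ` -/
structure KSm {M : Type} [SetStr M] [ZF M] (κ : M) : Prop where
  sub : ∀ {X Y : M}, Img κ X → Sub Y X → Img κ Y
  img : ∀ {X : M} (f : M → M), Fn1 f → Img κ X → Img κ (img X f)
  le : ∀ {v : M}, Sub v κ → Img κ v
  sing : ∀ (a : M), Img κ (sing a)
  bun : ∀ {X Y : M}, Img κ X → Img κ Y → Img κ (bun X Y)
  iUn : ∀ {X : M} (f : M → M), Fn1 f → Img κ X → (∀ y, E y X → Img κ (f y)) →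
    Img κ (SW.sUn (SW.img X f))
  cantor : ¬ Img κ (pow κ)

/-- KSM -/
def KSMStmt : Prop := ∀ (M : Type) [SetStr M] [ZFC M] (κ U : M), Meas κ U → KSm κ

/-! ## Part P: the poset -/

/-- CHU: the componentwise union of an increasing sequence with the right steps is stronger than
all members of the sequence -/
def CHUStmt : Prop := ∀ (M : Type) [SetStr M] [ZFC M] (p0 θ : M) (g : M → M), Fn1 g → Ord θ →
  (∀ i, E i θ → CLe (g i) (UP p0 i g)) →
  CLe (UP p0 θ g) p0 ∧ ∀ i, E i θ → CLe (UP p0 θ g) (g i)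

/-- CHAIN: sequences of conditions of length `θ ≤ κ`: at stage `j` a condition `p j`, below all
`g i`, `i ∈ j`, is given, and an extension `g j` of it and `y j ∈ Y` with `Nx` are chosen -/
def CHAINStmt : Prop := ∀ (M : Type) [SetStr M] [ZFC M] (κ U θ p0 Y : M)
  (Nx : M → M → M → M → Prop), Meas κ U → Df (fun v : Fin 4 → M => Nx (v 0) (v 1) (v 2) (v 3)) →
  Ord θ → Sub θ κ → E p0 (CP κ) →
  (∀ j p u, E j θ → E p (CP κ) → CLe p p0 → (∀ i, E i j → E (app u i) Y) →
    ∃ p' y, E p' (CP κ) ∧ CLe p' p ∧ E y Y ∧ Nx j p (gr j (fun i => app u i)) (opair p' y)) →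
  ∃ p g y q, E q (CP κ) ∧ CLe q p0 ∧ ∀ j, E j θ →
    E (app p j) (CP κ) ∧ CLe (app p j) p0 ∧ E (app g j) (CP κ) ∧ CLe (app g j) (app p j) ∧
    E (app y j) Y ∧ Nx j (app p j) (gr j (fun i => app y i)) (opair (app g j) (app y j)) ∧
    (∀ i, E i j → CLe (app p j) (app g i)) ∧ CLe q (app g j)

/-- DIST: `κ` many decisions -/
def DISTStmt : Prop := ∀ (M : Type) [SetStr M] [ZFC M] (κ U p v A : M)
  (D : M → M → M → Prop), Meas κ U → Cl3 D → E p (CP κ) → Sub v κ →
  (∀ r r' j y, D r j y → E r' (CP κ) → CLe r' r → D r' j y) →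
  (∀ r j, E r (CP κ) → CLe r p → E j v → ∃ r' y, E r' (CP κ) ∧ CLe r' r ∧ E y A ∧ D r' j y) →
  ∃ q g, E q (CP κ) ∧ CLe q p ∧ ∀ j, E j v → E (app g j) A ∧ D q j (app g j)

/-- CATCH: catching a function on finite sequences of subsets of `κ` -/
def CATCHStmt : Prop := ∀ (M : Type) [SetStr M] [ZFC M] (κ U p : M)
  (D : M → M → M → Prop), Meas κ U → Cl3 D → E p (CP κ) →
  (∀ r r' u b, D r u b → E r' (CP κ) → CLe r' r → D r' u b) →
  (∀ r n z, E r (CP κ) → CLe r p → E n om → (∀ i, E i (suc n) → E (app z i) (pow κ)) →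
    ∃ r' b, E r' (CP κ) ∧ CLe r' r ∧ E b two ∧ D r' (gr (suc n) (fun i => app z i)) b) →
  ∃ a F z t, E (opair a F) (CP κ) ∧ CLe (opair a F) p ∧
    (∀ n, E n om → E (app z n) (pow κ) ∧ E (app t n) two ∧
      D (opair a F) (gr (suc n) (fun i => app z i)) (app t n)) ∧
    E (img om (fun n => opair (app z n) (app t n))) F

/-- AVO: small subsets of the second component of a condition can be avoided -/
def AVOStmt : Prop := ∀ (M : Type) [SetStr M] [ZFC M] (κ U A a F F0 b : M), Meas κ U →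
  Indep κ U A → E (opair a F) (CP κ) → Sub F0 F → Small κ U F0 → E b κ →
  ∃ x, E x κ ∧ ¬ E x b ∧ ∀ e, E e F0 → ¬ InEE A e x

/-- EXD: enlarging the first component of a condition -/
def EXDStmt : Prop := ∀ (M : Type) [SetStr M] [ZFC M] (κ U a F c : M), Meas κ U →
  E (opair a F) (CP κ) → Sub c (pow κ) → Img κ c →
  E (opair (bun a c) F) (CP κ) ∧ CLe (opair (bun a c) F) (opair a F)

/-! ## Part G: the generic extension -/

/-- FUN: functions on a subset of `κ` with values in a set of `M` are in `M` -/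
def FUNStmt : Prop := ∀ (M : Type) [SetStr M] [ZFC M] [Countable M] (κ U : M) (G : M → Prop),
  Meas κ U → Gen (CF κ) G → ∀ [ZFC (Ext (CF κ) G)] (v A : M)
  (h : Ext (CF κ) G → Ext (CF κ) G), Sub v κ → Fn1 h →
  (∀ i, E i v → E (h (emb (CF κ) G i)) (emb (CF κ) G A)) →
  ∃ g : M, (∀ i, E i v → E (app g i) A ∧ h (emb (CF κ) G i) = emb (CF κ) G (app g i)) ∧
    gr (emb (CF κ) G v) h = emb (CF κ) G (gr v (fun i => app g i))

/-- SBN: the subsets of `κ` in the extension are those of `M` -/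
def SBNStmt : Prop := ∀ (M : Type) [SetStr M] [ZFC M] [Countable M] (κ U : M) (G : M → Prop),
  Meas κ U → Gen (CF κ) G → ∀ [ZFC (Ext (CF κ) G)],
  pow (emb (CF κ) G κ) = emb (CF κ) G (pow κ)

/-- MSN: the measure is a measure in the extension -/
def MSNStmt : Prop := ∀ (M : Type) [SetStr M] [ZFC M] [Countable M] (κ U : M) (G : M → Prop),
  Meas κ U → Gen (CF κ) G → ∀ [ZFC (Ext (CF κ) G)],
  Meas (emb (CF κ) G κ) (emb (CF κ) G U)

/-- SMN: small subsets, in the extension, of sets of `M` are in `M` and small there -/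
def SMNStmt : Prop := ∀ (M : Type) [SetStr M] [ZFC M] [Countable M] (κ U : M) (G : M → Prop),
  Meas κ U → Gen (CF κ) G → ∀ [ZFC (Ext (CF κ) G)] (X : M) (S : Ext (CF κ) G),
  Sub S (emb (CF κ) G X) → Small (emb (CF κ) G κ) (emb (CF κ) G U) S →
  ∃ S0 : M, Sub S0 X ∧ Small κ U S0 ∧ S = emb (CF κ) G S0

/-- HGF: members of the generic family -/
def HGFStmt : Prop := ∀ (M : Type) [SetStr M] [ZFC M] (κ : M) (G : M → Prop),
  Gen (CF κ) G → ∀ [ZFC (Ext (CF κ) G)] (x : Ext (CF κ) G),
  E x (HG κ G) ↔ ∃ a F e : M, G (opair a F) ∧ E e F ∧ x = emb (CF κ) G e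

/-- DIR: small subsets (in `M`) of the generic family are contained in one condition -/
def DIRStmt : Prop := ∀ (M : Type) [SetStr M] [ZFC M] (κ U F0 : M) (G : M → Prop),
  Meas κ U → Gen (CF κ) G → Small κ U F0 →
  (∀ e, E e F0 → ∃ a F : M, G (opair a F) ∧ E e F) → ∃ a F : M, G (opair a F) ∧ Sub F0 F

/-- AVN: the first property of the generic family -/
def AVNStmt : Prop := ∀ (M : Type) [SetStr M] [ZFC M] [Countable M] (κ U A : M)
  (G : M → Prop), Meas κ U → Indep κ U A → Gen (CF κ) G → ∀ [ZFC (Ext (CF κ) G)],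
  Avoid (emb (CF κ) G κ) (emb (CF κ) G U) (emb (CF κ) G A) (HG κ G)

/-- CTN: the second property of the generic family -/
def CTNStmt : Prop := ∀ (M : Type) [SetStr M] [ZFC M] [Countable M] (κ U : M)
  (G : M → Prop), Meas κ U → Gen (CF κ) G → ∀ [ZFC (Ext (CF κ) G)],
  Catch (emb (CF κ) G κ) (HG κ G)

/-! ## Part N: the games -/

/-- MSR: the two notions of measure agree -/
def MSRStmt : Prop := ∀ (M : Type) [SetStr M] [ZF M] (κ U : M), IsMeasure κ U ↔ Meas κ U

/-- REG: `κ` is regular -/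
def REGStmt : Prop := ∀ (M : Type) [SetStr M] [ZF M] (κ U : M), Meas κ U → IsRegular κ

/-- BID: the bounded sets form an ideal -/
def BIDStmt : Prop := ∀ (M : Type) [SetStr M] [ZF M] (κ U : M), Meas κ U →
  IsBoundedIdeal κ (BD κ) ∧ IsIdeal κ (BD κ)

/-- JID: the ideal -/
def JIDStmt : Prop := ∀ (M : Type) [SetStr M] [ZFC M] (κ U A H : M), Meas κ U →
  Avoid κ U A H → IsIdeal κ (JJ κ U A H)

/-- the notions for the game, for sequences which are given by set functions -/
structure PlayFacts (M : Type) [SetStr M] [ZF M] : Prop where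
  /-- restrictions of sequences -/
  res : ∀ {g x r : M} (c : M → M), Fn1 c → Ord g → E x g →
    (IsRestr r (gr g c) x ↔ r = gr (suc x) c)
  /-- the answer of a function `s` -/
  ans : ∀ {g x s Z : M} (c : M → M), Fn1 c → Ord g → E x g →
    (Answers s (gr g c) x Z ↔ E (opair (gr (suc x) c) Z) s)
  /-- the current set exists and is unique -/
  cur : ∀ (k s c x : M), ∃ C, IsCurrent k s c x C ∧ ∀ C', IsCurrent k s c x C' → C' = C
  /-- all plays are of this form, up to members which do not matter -/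
  fn : ∀ {k s c g : M}, IsPlay k s c g → Ord g → ∀ x r, E x g →
    (IsRestr r c x ↔ r = gr (suc x) (fun i => app c i))

/-- PLF -/
def PLFStmt : Prop := ∀ (M : Type) [SetStr M] [ZF M], PlayFacts M

/-- WBD: a winning strategy for the ideal of bounded sets -/
def WBDStmt : Prop := ∀ (M : Type) [SetStr M] [ZF M] (κ U g : M), Meas κ U → E g κ →
  ∃ s, IsWinning κ (BD κ) g s

/-- NOW: no winning strategy for the ideal `JJ` in the game of length `ω` -/
def NOWStmt : Prop := ∀ (M : Type) [SetStr M] [ZFC M] (κ U A H s : M), Meas κ U →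
  Catch κ H → ¬ IsWinning κ (JJ κ U A H) om s

/-- NOG: from any limit length to length `ω` -/
def NOGStmt : Prop := ∀ (M : Type) [SetStr M] [ZF M] (k J g s : M), IsLimit g →
  (∀ X Y, E X J → Sub Y X → E Y J) → IsWinning k J g s → IsWinning k J om s

/-- LSM: a model of ZFC with a measure gives a countable one -/
def LSMStmt : Prop := ∀ (M : Type) [SetStr M] [ZFC M], (∃ κ U : M, IsMeasure κ U) →
  ∃ (N : Type) (_ : SetStr N) (_ : ZFC N), Countable N ∧ ∃ κ U : N, IsMeasure κ U

end SW.CC
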