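import Pool.Agent.H94.CC.CHAIN

/-!
Module CATCH: catching functions on finite sequences.
-/

set_option linter.unusedVariables false
set_option linter.unusedSectionVars false
set_option synthInstance.maxSize 100000

namespace SW.CC

section
variable {M : Type} [SetStr M] [ZF M]

/-- adding a value to a graph -/
theorem app_ins_old {j i k : M} {f : M → M} (hf : Fn1 f) (hk : E k j) :
    app (ins (opair j i) (gr j f)) k = f k := by
  refine the_eq (mem_ins.2 (Or.inl ((opair_mem_gr hf).2 ⟨hk, rfl⟩))) fun z hz => ?_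
  rcases mem_ins.1 hz with h | h
  · exact ((opair_mem_gr hf).1 h).2
  · rw [(opair_inj.1 h).1] at hk
    exact absurd hk (not_mem_self j)

theorem app_ins_new {j i : M} {f : M → M} (hf : Fn1 f) :
    app (ins (opair j i) (gr j f)) j = i := by
  refine the_eq (mem_ins.2 (Or.inr rfl)) fun z hz => ?_
  rcases mem_ins.1 hz with h | h
  · exact absurd ((opair_mem_gr hf).1 h).1 (not_mem_self j)
  · exact (opair_inj.1 h).2

/-- a function on `suc j` from its restriction to `j` and its last value -/
theorem ins_gr_eq {j : M} {f h : M → M} (hf : Fn1 f) (hh : Fn1 h) (e : ∀ k, E k j → f k = h k) :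
    ins (opair j (h j)) (gr j f) = gr (suc j) h := by
  refine ext fun z => ?_
  rw [mem_ins, mem_gr' hf, mem_gr' hh]
  constructor
  · rintro (⟨k, hk, rfl⟩ | rfl)
    · exact ⟨k, mem_suc.2 (Or.inl hk), by rw [e k hk]⟩
    · exact ⟨j, mem_suc.2 (Or.inr rfl), rfl⟩
  · rintro ⟨k, hk, rfl⟩
    rcases mem_suc.1 hk with hk | rfl
    · exact Or.inl ⟨k, hk, by rw [e k hk]⟩
    · exact Or.inr rfl

/-- adding a member to the second component, the representative of which has been reserved -/
theorem SDR.add {a F b H e x : M} (h : SDR (ins x a) F b H) (hx : ¬ E x a) (hxb : E x b)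
    (he : ∃ c, E (opair x c) e) : SDR a F b (ins e H) := by
  obtain ⟨r, r1, r2, r3⟩ := h
  by_cases heF : E e F
  · refine ⟨r, fun e' y hy => ?_, fun e' he' h' => ?_, r3⟩
    · obtain ⟨⟨g1, g2⟩, ⟨g3, g4⟩, g5⟩ := r1 e' y hy
      exact ⟨⟨mem_ins.2 (Or.inl g1), g2⟩, ⟨g3, fun hh => g4 (mem_ins.2 (Or.inl hh))⟩, g5⟩
    · rcases mem_ins.1 he' with he' | rfl
      · exact r2 e' he' h'
      · exact absurd heF h'
  · refine ⟨ins (opair e x) (sep r (fun z => ∀ y : M, z ≠ opair e y)), fun e' y hy => ?_,
      fun e' he' h' => ?_, fun e' e'' y hy hy' => ?_⟩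
    · rcases mem_ins.1 hy with hy | hy
      · obtain ⟨⟨g1, g2⟩, ⟨g3, g4⟩, g5⟩ := r1 e' y (mem_sep.1 hy).1
        exact ⟨⟨mem_ins.2 (Or.inl g1), g2⟩, ⟨g3, fun hh => g4 (mem_ins.2 (Or.inl hh))⟩, g5⟩
      · obtain ⟨rfl, rfl⟩ := opair_inj.1 hy
        exact ⟨⟨mem_ins.2 (Or.inr rfl), heF⟩, ⟨hxb, hx⟩, he⟩
    · by_cases hee : e' = e
      · subst hee
        exact ⟨x, mem_ins.2 (Or.inr rfl)⟩
      · rcases mem_ins.1 he' with he' | rfl
        · obtain ⟨y, hy⟩ := r2 e' he' h'
          exact ⟨y, mem_ins.2 (Or.inl (mem_sep.2 ⟨hy, fun y' hh => hee (opair_inj.1 hh).1⟩))⟩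
        · exact absurd rfl hee
    · have hnx : ∀ e', E (opair e' x) r → False := fun e' hh =>
        (r1 e' x hh).2.1.2 (mem_ins.2 (Or.inr rfl))
      rcases mem_ins.1 hy with g1 | g1
      · rcases mem_ins.1 hy' with g2 | g2
        · exact r3 e' e'' y (mem_sep.1 g1).1 (mem_sep.1 g2).1
        · have g3 := (mem_sep.1 g1).1
          rw [(opair_inj.1 g2).2] at g3
          exact absurd g3 (hnx e')
      · rcases mem_ins.1 hy' with g2 | g2
        · have g3 := (mem_sep.1 g2).1
          rw [(opair_inj.1 g1).2] at g3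
          exact absurd g3 (hnx e'')
        · exact (opair_inj.1 g1).1.trans (opair_inj.1 g2).1.symm

end

theorem cc_catch (hchain : CHAINStmt) (hexd : EXDStmt) (hksm : KSMStmt) : CATCHStmt := by
  intro M _ _ κ U p0 D hm hD hp0 hmono hdense
  have hk : KSm κ := hksm M κ U hm
  have hNd : Df (fun v : Fin 4 → M => (fun j p u z : M =>
      ¬ E (fst (snd z)) (fst p) ∧ CLe (fst z) (opair (ins (fst (snd z)) (fst p)) (snd p)) ∧
      D (fst z) (ins (opair j (fst (snd z))) (gr j (fun k => fst (app u k)))) (snd (snd z)))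
      (v 0) (v 1) (v 2) (v 3)) := by
    beta_reduce
    infer_instance
  obtain ⟨p, g, y, q, hq, hqp, H⟩ := hchain M κ U om p0 (prod (pow κ) two)
    (fun j p u z : M =>
      ¬ E (fst (snd z)) (fst p) ∧ CLe (fst z) (opair (ins (fst (snd z)) (fst p)) (snd p)) ∧
      D (fst z) (ins (opair j (fst (snd z))) (gr j (fun k => fst (app u k)))) (snd (snd z)))
    hm hNd Ord_om (hm.ord.1 om hm.om) hp0 (by
      intro j p u hj hp hpp hu
      -- an unused index
      obtain ⟨i, hi, hip⟩ : ∃ i, E i (pow κ) ∧ ¬ E i (fst p) := by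
        by_contra hcon
        push Not at hcon
        exact hk.cantor (hk.sub (CP_fst hp).2.1 hcon)
      have hpe : opair (fst p) (snd p) = p := (CP_pair hp).symm
      obtain ⟨k1, k2⟩ := hexd M κ U (fst p) (snd p) (sing i) hm (by rwa [hpe])
        (fun z hz => by rw [mem_sing] at hz; rw [hz]; exact hi) (hk.sing i)
      change E (opair (ins i (fst p)) (snd p)) (CP κ) at k1
      change CLe (opair (ins i (fst p)) (snd p)) _ at k2
      rw [hpe] at k2
      have hfu : Fn1 (fun k : M => fst (app u k)) := inferInstance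
      obtain ⟨r', b, m1, m2, m3, m4⟩ := hdense (opair (ins i (fst p)) (snd p)) j
        (ins (opair j i) (gr j (fun k => fst (app u k)))) k1 (k2.trans hpp) hj (by
          intro k hkj
          rcases mem_suc.1 hkj with hkj | rfl
          · rw [app_ins_old hfu hkj]
            obtain ⟨x, c, hx, hc, hxc⟩ := mem_prod'.1 (hu k hkj)
            rw [hxc, fst_opair]
            exact hx
          · rw [app_ins_new hfu]
            exact hi)
      have e1 : gr (suc j) (fun k => app (ins (opair j i) (gr j (fun k => fst (app u k)))) k)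
          = ins (opair j i) (gr j (fun k => fst (app u k))) := by
        have := ins_gr_eq (j := j) (f := fun k => fst (app u k))
          (h := fun k => app (ins (opair j i) (gr j (fun k => fst (app u k)))) k)
          hfu inferInstance (fun k hkj => (app_ins_old hfu hkj).symm)
        rw [← this, app_ins_new hfu]
      rw [e1] at m4
      refine ⟨r', opair i b, m1, m2.trans k2, mem_prod.2 ⟨hi, m3⟩, ?_⟩
      simp only [fst_opair, snd_opair]
      refine ⟨hip, m2, ?_⟩
      have e2 : gr j (fun k => fst (app (gr j (fun i => app u i)) k))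
          = gr j (fun k => fst (app u k)) :=
        gr_congr inferInstance inferInstance fun k hkj => by
          rw [app_gr inferInstance hkj]
      rw [e2]
      exact m4)
  have hfz : Fn1 (fun n : M => fst (app y n)) := inferInstance
  have hft : Fn1 (fun n : M => snd (app y n)) := inferInstance
  obtain ⟨z, hz⟩ : ∃ z, z = gr om (fun n => fst (app y n)) := ⟨_, rfl⟩
  obtain ⟨t, ht⟩ : ∃ t, t = gr om (fun n => snd (app y n)) := ⟨_, rfl⟩
  have hzn : ∀ n, E n om → app z n = fst (app y n) := fun n hn => by rw [hz, app_gr hfz hn]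
  have htn : ∀ n, E n om → app t n = snd (app y n) := fun n hn => by rw [ht, app_gr hft hn]
  obtain ⟨e, he⟩ : ∃ e, e = img om (fun n => opair (app z n) (app t n)) := ⟨_, rfl⟩
  have hmem_e : ∀ n, E n om → E (opair (app z n) (app t n)) e := fun n hn => by
    rw [he]
    exact (mem_img' inferInstance).2 ⟨n, hn, rfl⟩
  -- unfolding the chain
  have H1 : ∀ n, E n om → E (app p n) (CP κ) ∧ CLe (app p n) p0 ∧ E (app g n) (CP κ) ∧
      CLe (app g n) (app p n) ∧ (E (app z n) (pow κ) ∧ E (app t n) two) ∧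
      ¬ E (app z n) (fst (app p n)) ∧
      CLe (app g n) (opair (ins (app z n) (fst (app p n))) (snd (app p n))) ∧
      D (app g n) (gr (suc n) (fun i => app z i)) (app t n) ∧
      (∀ i, E i n → CLe (app p n) (app g i)) ∧ CLe q (app g n) := by
    intro n hn
    obtain ⟨h1, h2, h3, h4, h5, h6, h7, h8⟩ := H n hn
    simp only [fst_opair, snd_opair] at h6
    rw [← hzn n hn, ← htn n hn] at h6
    have e2 : ins (opair n (app z n)) (gr n (fun k => fst (app (gr n (fun i => app y i)) k)))
        = gr (suc n) (fun i => app z i) := by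
      refine ins_gr_eq (h := fun i => app z i) inferInstance inferInstance fun k hkn => ?_
      rw [app_gr inferInstance hkn, hzn k (Ord_om.trans hn hkn)]
    rw [e2] at h6
    refine ⟨h1, h2, h3, h4, ?_, h6.1, h6.2.1, h6.2.2, h7, h8⟩
    rw [hzn n hn, htn n hn]
    obtain ⟨x, c, hx, hc, hxc⟩ := mem_prod'.1 h5
    rw [hxc, fst_opair, snd_opair]
    exact ⟨hx, hc⟩
  -- the final condition is below all members of the chain
  have H2 : ∀ n, E n om → CLe (opair (fst q) (ins e (snd q))) (app p n) := by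
    intro n hn
    obtain ⟨h1, h2, h3, h4, h5, h6, h7, h8, h9, h10⟩ := H1 n hn
    have h11 := h10.trans h7
    have h12 : CLe q (app p n) := h10.trans h4
    refine ⟨?_, ?_, ?_⟩
    · rw [fst_opair]
      exact h12.1
    · rw [snd_opair]
      exact fun x hx => mem_ins.2 (Or.inl (h12.2.1 x hx))
    · rw [fst_opair, snd_opair]
      have h13 := h11.2.2
      rw [fst_opair, snd_opair] at h13
      refine h13.add h6 ?_ ⟨_, hmem_e n hn⟩
      have h14 := h11.1
      rw [fst_opair] at h14
      exact h14 _ (mem_ins.2 (Or.inr rfl))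
  have H3 : ∀ n, E n om → CLe (opair (fst q) (ins e (snd q))) (app g n) := fun n hn =>
    (H2 (suc n) (suc_mem_om hn)).trans
      ((H1 (suc n) (suc_mem_om hn)).2.2.2.2.2.2.2.2.1 n (mem_suc.2 (Or.inr rfl)))
  have H4 : CLe (opair (fst q) (ins e (snd q))) p0 :=
    (H2 emp emp_mem_om).trans (H1 emp emp_mem_om).2.1
  have H5 : E (opair (fst q) (ins e (snd q))) (CP κ) := by
    refine CP_of_le' hp0 H4 (by rw [fst_opair, snd_opair]) ?_ ?_ ?_
    · rw [fst_opair]; exact (CP_fst hq).1
    · rw [fst_opair]; exact (CP_fst hq).2.1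
    · rw [fst_opair, snd_opair]
      intro e' he'
      rcases mem_ins.1 he' with he' | rfl
      · exact (CP_fst hq).2.2 e' he'
      · intro x hx
        rw [he] at hx
        obtain ⟨n, hn, rfl⟩ := (mem_img' inferInstance).1 hx
        obtain ⟨h1, h2, h3, h4, h5, h6, h7, h8, h9, h10⟩ := H1 n hn
        refine mem_prod.2 ⟨?_, h5.2⟩
        have h14 := (h10.trans h7).1
        rw [fst_opair] at h14
        exact h14 _ (mem_ins.2 (Or.inr rfl))
  refine ⟨fst q, ins e (snd q), z, t, H5, H4, fun n hn => ?_, ?_⟩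
  · obtain ⟨h1, h2, h3, h4, h5, h6, h7, h8, h9, h10⟩ := H1 n hn
    exact ⟨h5.1, h5.2, hmono _ _ _ _ h8 H5 (H3 n hn)⟩
  · rw [← he]
    exact mem_ins.2 (Or.inr rfl)

end SW.CC
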