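import Pool.Agent.H94.CC.Stmts

/-!
Assembly of the modules of project CC.
-/

set_option linter.unusedVariables false
set_option synthInstance.maxSize 100000

namespace SW.CC

/-- the purely combinatorial part, in a model of ZFC -/
theorem final_n (hmsr : MSRStmt) (hreg : REGStmt) (hbid : BIDStmt) (hjid : JIDStmt)
    (hwbd : WBDStmt) (hnow : NOWStmt) (hnog : NOGStmt) (N : Type) [SetStr N] [ZFC N]
    (κ U A H : N) (hm : Meas κ U) (ha : Avoid κ U A H) (hc : Catch κ H) :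
    IdealDependence N := by
  refine ⟨κ, U, BD κ, JJ κ U A H, hreg N κ U hm, (hmsr N κ U).2 hm, (hbid N κ U hm).1,
    (hbid N κ U hm).2, hjid N κ U A H hm ha, fun g hg hl => ⟨hwbd N κ U g hm hg, ?_⟩⟩
  rintro ⟨s, hs⟩
  exact hnow N κ U A H s hm hc
    (hnog N κ (JJ κ U A H) g s hl (fun X Y hX hY => (hjid N κ U A H hm ha).2.1 X Y hX hY) hs)

/-- the forcing construction over a countable model -/
theorem final_g (hacx : ACXStmt) (hind : INDStmt) (hmsn : MSNStmt) (havn : AVNStmt)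
    (hctn : CTNStmt) (hmsr : MSRStmt) (hreg : REGStmt) (hbid : BIDStmt) (hjid : JIDStmt)
    (hwbd : WBDStmt) (hnow : NOWStmt) (hnog : NOGStmt) (M : Type) [SetStr M] [ZFC M]
    [Countable M] (κ U : M) (hm : IsMeasure κ U) :
    ∃ (N : Type) (_ : SetStr N) (_ : ZFC N) (i : M → N), IsGenExt i ∧ IdealDependence N := by
  have hm' : Meas κ U := (hmsr M κ U).1 hm
  obtain ⟨A, hA⟩ := hind M κ U hm'
  obtain ⟨G, hG, _⟩ := (semF (CF κ)).ex (CF κ).one (CF κ).one_mem
  have hz : ZFC (Ext (CF κ) G) := hacx M (CF κ) G hG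
  exact ⟨Ext (CF κ) G, inferInstance, hz, emb (CF κ) G, valF hG,
    final_n hmsr hreg hbid hjid hwbd hnow hnog
    (Ext (CF κ) G) (emb (CF κ) G κ) (emb (CF κ) G U) (emb (CF κ) G A) (HG κ G)
    (hmsn M κ U G hm' hG) (havn M κ U A G hm' hA hG) (hctn M κ U G hm' hG)⟩

end SW.CC
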