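import Pool.Agent.H94.CC.CHAIN

/-!
Module NOW: Choose has no winning strategy in the game of length `ω` with the ideal `JJ`.
-/

set_option linter.unusedVariables false
set_option linter.unusedSectionVars false
set_option synthInstance.maxSize 100000

namespace SW.CC

section
variable {M : Type} [SetStr M] [ZF M]

/-- the move of Cut at stage `k`, `h` being the sequence of the earlier moves: the part of the
current set in the member of the family `A` with index `app z k` -/
noncomputable def MvF (κ s A z k h : M) : M := sep κ (fun x => (∀ j Z : M, E j k →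
  E (opair (gr (suc j) (fun i => app h i)) Z) s → E x Z) ∧ E (opair (app z k) x) A)

/-- the moves of Cut along the sequence `z` of indices, against `s` -/
noncomputable def Mv (κ s A z k : M) : M := mrec (fun k h => MvF κ s A z k h) k

theorem Mv_df (κ s A : M) : Fn2 (fun z k : M => Mv κ s A z k) := by
  unfold Mv MvF
  infer_instance

instance {κ s A : M} {n : ℕ} {t u : (Fin n → M) → M} [ht : DfT t] [hu : DfT u] :
    DfT (fun v => Mv κ s A (t v) (u v)) :=
  (Mv_df κ s A).comp2 ht hu

theorem mem_Mv {κ s A z k x : M} (hk : Ord k) : E x (Mv κ s A z k) ↔ E x κ ∧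
    (∀ j Z : M, E j k → E (opair (gr (suc j) (fun i => Mv κ s A z i)) Z) s → E x Z) ∧
    E (opair (app z k) x) A := by
  have h1 : Fn2 (fun k h : M => MvF κ s A z k h) := by unfold MvF; infer_instance
  have h2 : Mv κ s A z k = MvF κ s A z k (gr k (fun k => Mv κ s A z k)) := by
    unfold Mv
    exact mrec_eq h1 k
  rw [h2]
  unfold MvF
  rw [mem_sep' inferInstance]
  refine and_congr Iff.rfl (and_congr ?_ Iff.rfl)
  refine forall_congr' fun j => forall_congr' fun Z => ?_
  refine imp_congr_right fun hj => ?_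
  have h3 : gr (suc j) (fun i => app (gr k (fun k => Mv κ s A z k)) i)
      = gr (suc j) (fun i => Mv κ s A z i) := by
    refine gr_congr inferInstance inferInstance fun i hi => ?_
    rw [app_gr (f := fun k => Mv κ s A z k) inferInstance ((hk.mem hj).suc_sub hk hj i hi)]
  rw [h3]

theorem Mv_congr {κ s A z z' k : M} (hk : Ord k)
    (h : ∀ i, E i (suc k) → app z i = app z' i) : Mv κ s A z k = Mv κ s A z' k := by
  revert hk h
  refine mem_induction (C := fun k : M => Ord k → (∀ i : M, E i (suc k) → app z i = app z' i) →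
    Mv κ s A z k = Mv κ s A z' k) inferInstance ?_ k
  intro k ih hk h
  refine ext fun x => ?_
  rw [mem_Mv hk, mem_Mv hk, h k (mem_suc.2 (Or.inr rfl))]
  refine and_congr Iff.rfl (and_congr ?_ Iff.rfl)
  refine forall_congr' fun j => forall_congr' fun Z => ?_
  refine imp_congr_right fun hj => ?_
  have h3 : gr (suc j) (fun i => Mv κ s A z i) = gr (suc j) (fun i => Mv κ s A z' i) := by
    refine gr_congr inferInstance inferInstance fun i hi => ?_
    have hik : E i k := (hk.mem hj).suc_sub hk hj i hi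
    exact ih i hik (hk.mem hik) fun i' hi' =>
      h i' (mem_suc.2 (Or.inl ((hk.mem hik).suc_sub hk hik i' hi')))
  rw [h3]

/-- the function on finite sequences: is the last answer of `s` the piece played by Cut? -/
noncomputable def Tau (κ s A : M) : M := gr (pow (prod om (pow κ))) (fun u => sep (sing emp)
  (fun _ => ∃ n : M, E n om ∧ (∀ i : M, E i (suc n) ↔ ∃ y : M, E (opair i y) u) ∧
    E (opair (gr (suc n) (fun i => Mv κ s A u i)) (Mv κ s A u n)) s))

theorem Tau_val {κ s A z n : M} (hn : E n om)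
    (hz : ∀ i, E i (suc n) → E (app z i) (pow κ)) :
    E (app (Tau κ s A) (gr (suc n) (fun i => app z i))) two ∧
    (app (Tau κ s A) (gr (suc n) (fun i => app z i)) = sing emp ↔
      E (opair (gr (suc n) (fun i => Mv κ s A z i)) (Mv κ s A z n)) s) := by
  have hfz : Fn1 (fun i : M => app z i) := inferInstance
  have hu : E (gr (suc n) (fun i => app z i)) (pow (prod om (pow κ))) := by
    rw [mem_pow]
    intro w hw
    obtain ⟨i, hi, rfl⟩ := (mem_gr' hfz).1 hw
    exact mem_prod.2 ⟨Ord_om.trans (suc_mem_om hn) hi, hz i hi⟩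
  have hT : app (Tau κ s A) (gr (suc n) (fun i => app z i)) = sep (sing emp)
      (fun _ => ∃ m : M, E m om ∧
        (∀ i : M, E i (suc m) ↔ ∃ y : M, E (opair i y) (gr (suc n) (fun i => app z i))) ∧
        E (opair (gr (suc m) (fun i => Mv κ s A (gr (suc n) (fun i => app z i)) i))
          (Mv κ s A (gr (suc n) (fun i => app z i)) m)) s) := by
    unfold Tau
    rw [app_gr inferInstance hu]
  have hMv : ∀ i, E i (suc n) → Mv κ s A (gr (suc n) (fun i => app z i)) i = Mv κ s A z i := by
    intro i hi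
    have hon : Ord (suc n) := Ord_nat (suc_mem_om hn)
    refine Mv_congr (hon.mem hi) fun i' hi' => ?_
    rw [app_gr hfz ((hon.mem hi).suc_sub hon hi i' hi')]
  have hdom : ∀ i, E i (suc n) ↔ ∃ y : M, E (opair i y) (gr (suc n) (fun i => app z i)) :=
    fun i => ⟨fun hi => ⟨app z i, (opair_mem_gr hfz).2 ⟨hi, rfl⟩⟩,
      fun ⟨y, hy⟩ => ((opair_mem_gr hfz).1 hy).1⟩
  have hiff : (∃ m : M, E m om ∧
        (∀ i : M, E i (suc m) ↔ ∃ y : M, E (opair i y) (gr (suc n) (fun i => app z i))) ∧
        E (opair (gr (suc m) (fun i => Mv κ s A (gr (suc n) (fun i => app z i)) i))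
          (Mv κ s A (gr (suc n) (fun i => app z i)) m)) s) ↔
      E (opair (gr (suc n) (fun i => Mv κ s A z i)) (Mv κ s A z n)) s := by
    have hgr : gr (suc n) (fun i => Mv κ s A (gr (suc n) (fun i => app z i)) i)
        = gr (suc n) (fun i => Mv κ s A z i) :=
      gr_congr inferInstance inferInstance hMv
    constructor
    · rintro ⟨m, hm, hd, h⟩
      have : suc m = suc n := ext fun i => (hd i).trans (hdom i).symm
      have := suc_inj this
      subst this
      rwa [hgr, hMv m (mem_suc.2 (Or.inr rfl))] at h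
    · intro h
      refine ⟨n, hn, hdom, ?_⟩
      rwa [hgr, hMv n (mem_suc.2 (Or.inr rfl))]
  rw [hT]
  rcases Classical.em (E (opair (gr (suc n) (fun i => Mv κ s A z i)) (Mv κ s A z n)) s)
    with hP | hP
  · have e1 : sep (sing (emp : M))
      (fun _ => ∃ m : M, E m om ∧
        (∀ i : M, E i (suc m) ↔ ∃ y : M, E (opair i y) (gr (suc n) (fun i => app z i))) ∧
        E (opair (gr (suc m) (fun i => Mv κ s A (gr (suc n) (fun i => app z i)) i))
          (Mv κ s A (gr (suc n) (fun i => app z i)) m)) s) = sing emp := by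
      refine ext fun w => ?_
      rw [mem_sep' inferInstance]
      exact ⟨fun h => h.1, fun h => ⟨h, hiff.2 hP⟩⟩
    rw [e1]
    exact ⟨mem_upair.2 (Or.inr rfl), fun _ => hP, fun _ => rfl⟩
  · have e1 : sep (sing (emp : M))
      (fun _ => ∃ m : M, E m om ∧
        (∀ i : M, E i (suc m) ↔ ∃ y : M, E (opair i y) (gr (suc n) (fun i => app z i))) ∧
        E (opair (gr (suc m) (fun i => Mv κ s A (gr (suc n) (fun i => app z i)) i))
          (Mv κ s A (gr (suc n) (fun i => app z i)) m)) s) = emp := by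
      refine eq_emp fun w hw => ?_
      exact hP (hiff.1 ((mem_sep' inferInstance).1 hw).2)
    rw [e1]
    refine ⟨mem_upair.2 (Or.inl rfl), fun h => ?_, fun h => absurd h hP⟩
    have h2 : E (emp : M) (sing emp) := mem_sing.2 rfl
    rw [← h] at h2
    exact absurd h2 (not_mem_emp (emp : M))

end

theorem cc_now (hplf : PLFStmt) (hsma : SMAStmt) : NOWStmt := by
  intro M _ _ κ U A H s hm hc hw
  have hpl := hplf M
  obtain ⟨z, hz, he⟩ := hc (Tau κ s A) fun n z hn hz => (Tau_val hn hz).1
  have hzs : ∀ n, E n om → ∀ i, E i (suc n) → E (app z i) (pow κ) := fun n hn i hi =>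
    hz i (Ord_om.trans (suc_mem_om hn) hi)
  obtain ⟨e, hee⟩ : ∃ e, e = img om (fun n => opair (app z n)
    (app (Tau κ s A) (gr (suc n) (fun i => app z i)))) := ⟨_, rfl⟩
  rw [← hee] at he
  have hfc : Fn1 (fun i : M => Mv κ s A z i) := inferInstance
  have hans : ∀ i Z, E i om → (Answers s (gr om (fun i => Mv κ s A z i)) i Z ↔
      E (opair (gr (suc i) (fun i => Mv κ s A z i)) Z) s) := fun i Z hi =>
    hpl.ans (fun i => Mv κ s A z i) hfc Ord_om hi
  have hcur : ∀ n C, E n om → IsCurrent κ s (gr om (fun i => Mv κ s A z i)) n C →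
      ∀ x, E x (Mv κ s A z n) ↔ E x C ∧ E (opair (app z n) x) A := by
    intro n C hn hC x
    rw [mem_Mv (Ord_om.mem hn), hC x]
    constructor
    · rintro ⟨h1, h2, h3⟩
      exact ⟨⟨h1, fun i Z hi hZ => h2 i Z hi ((hans i Z (Ord_om.trans hn hi)).1 hZ)⟩, h3⟩
    · rintro ⟨⟨h1, h2⟩, h3⟩
      exact ⟨h1, fun i Z hi hZ => h2 i Z hi ((hans i Z (Ord_om.trans hn hi)).2 hZ), h3⟩
  have hplay : IsPlay κ s (gr om (fun i => Mv κ s A z i)) om := by
    intro x hx
    refine ⟨Mv κ s A z x, ?_, fun A' hA' => ?_, fun C hC y hy => ((hcur x C hx hC y).1 hy).1⟩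
    · rw [pairIn_iff, opair_mem_gr hfc]
      exact ⟨hx, rfl⟩
    · rw [pairIn_iff, opair_mem_gr hfc] at hA'
      exact hA'.2
  obtain ⟨hw1, hw2⟩ := hw _ hplay
  obtain ⟨C, hC, _⟩ := hpl.cur κ s (gr om (fun i => Mv κ s A z i)) om
  refine hw2 C hC (mem_JJ.2 ⟨fun x hx => ((hC x).1 hx).1, emp, sing e, ?_, ?_, ?_, ?_⟩)
  · exact hm.ord.trans hm.om emp_mem_om
  · intro x hx
    rw [mem_sing] at hx
    rwa [hx]
  · refine (hsma M κ U hm).fin ?_
    have : sing e = ins e emp := ext fun x => by rw [mem_sing, mem_ins]; simp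
    rw [this]
    exact finF.ins finF.emp
  · intro x hx
    refine Or.inr ⟨e, mem_sing.2 rfl, ?_⟩
    intro i b hib
    rw [hee, mem_img' inferInstance] at hib
    obtain ⟨n, hn, hib⟩ := hib
    obtain ⟨rfl, rfl⟩ := opair_inj.1 hib
    rw [(Tau_val hn (hzs n hn)).2]
    obtain ⟨Cn, hCn, _⟩ := hpl.cur κ s (gr om (fun i => Mv κ s A z i)) n
    obtain ⟨Z, hZ1, hZ2, hZ3⟩ := hw1 n (Mv κ s A z n) Cn hn
      (by rw [pairIn_iff, opair_mem_gr hfc]; exact ⟨hn, rfl⟩) hCn
    have hxZ : E x Z := ((hC x).1 hx).2 n Z hn hZ1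
    have hxn : E x Cn := (hCn x).2 ⟨((hC x).1 hx).1, fun i Z' hi hZ' =>
      ((hC x).1 hx).2 i Z' (Ord_om.trans hn hi) hZ'⟩
    rcases hZ3 with hZ3 | hZ3
    · subst hZ3
      exact ⟨fun _ => (hans n _ hn).1 hZ1, fun _ => ((hcur n Cn hn hCn x).1 hxZ).2⟩
    · constructor
      · intro h
        exact absurd ((hcur n Cn hn hCn x).2 ⟨hxn, h⟩) ((hZ3 x).1 hxZ).2
      · intro h
        have h1 := hZ2 _ ((hans n _ hn).2 h)
        have h2 := ((hZ3 x).1 hxZ).2
        rw [h1] at h2
        exact absurd hxZ h2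

end SW.CC
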