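import Pool.Agent.H94.CC.Core
import Pool.Agent.H35.SW.GenExt

/-!
The statement about cut and choose games is expressed by a sentence of the language of set
theory.
-/

set_option linter.unusedVariables false
set_option synthInstance.maxSize 100000

namespace SW.CC

theorem Incl_uu : UDf (fun M _ (w : Fin 2 → M) => Incl (w 0) (w 1)) := by
  unfold Incl; infer_instance

instance {n : ℕ} {t s : ∀ (M : Type) [SetStr M], (Fin n → M) → M} [UV t] [UV s] :
    UDf (fun M _ v => Incl (t M v) (s M v)) :=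
  Incl_uu.comp2 (R := fun _ _ a b => Incl a b) t s

theorem IsOrdinal_uu : UDf (fun M _ (w : Fin 1 → M) => IsOrdinal (w 0)) := by
  unfold IsOrdinal; infer_instance

instance {n : ℕ} {t : ∀ (M : Type) [SetStr M], (Fin n → M) → M} [UV t] :
    UDf (fun M _ v => IsOrdinal (t M v)) :=
  IsOrdinal_uu.comp1 (R := fun _ _ a => IsOrdinal a) t

theorem IsLimit_uu : UDf (fun M _ (w : Fin 1 → M) => IsLimit (w 0)) := by
  unfold IsLimit; infer_instance

instance {n : ℕ} {t : ∀ (M : Type) [SetStr M], (Fin n → M) → M} [UV t] :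
    UDf (fun M _ v => IsLimit (t M v)) :=
  IsLimit_uu.comp1 (R := fun _ _ a => IsLimit a) t

theorem IsFunc_uu : UDf (fun M _ (w : Fin 3 → M) => IsFunc (w 0) (w 1) (w 2)) := by
  unfold IsFunc; infer_instance

instance {n : ℕ} {t s u : ∀ (M : Type) [SetStr M], (Fin n → M) → M} [UV t] [UV s] [UV u] :
    UDf (fun M _ v => IsFunc (t M v) (s M v) (u M v)) :=
  IsFunc_uu.comp3 (R := fun _ _ a b c => IsFunc a b c) t s u

theorem IsRegular_uu : UDf (fun M _ (w : Fin 1 → M) => IsRegular (w 0)) := by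
  unfold IsRegular; infer_instance

instance {n : ℕ} {t : ∀ (M : Type) [SetStr M], (Fin n → M) → M} [UV t] :
    UDf (fun M _ v => IsRegular (t M v)) :=
  IsRegular_uu.comp1 (R := fun _ _ a => IsRegular a) t

theorem IsMeasure_uu : UDf (fun M _ (w : Fin 2 → M) => IsMeasure (w 0) (w 1)) := by
  unfold IsMeasure; infer_instance

instance {n : ℕ} {t s : ∀ (M : Type) [SetStr M], (Fin n → M) → M} [UV t] [UV s] :
    UDf (fun M _ v => IsMeasure (t M v) (s M v)) :=
  IsMeasure_uu.comp2 (R := fun _ _ a b => IsMeasure a b) t s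

theorem IsBoundedIdeal_uu : UDf (fun M _ (w : Fin 2 → M) => IsBoundedIdeal (w 0) (w 1)) := by
  unfold IsBoundedIdeal; infer_instance

instance {n : ℕ} {t s : ∀ (M : Type) [SetStr M], (Fin n → M) → M} [UV t] [UV s] :
    UDf (fun M _ v => IsBoundedIdeal (t M v) (s M v)) :=
  IsBoundedIdeal_uu.comp2 (R := fun _ _ a b => IsBoundedIdeal a b) t s

theorem IsIdeal_uu : UDf (fun M _ (w : Fin 2 → M) => IsIdeal (w 0) (w 1)) := by
  unfold IsIdeal; infer_instance

instance {n : ℕ} {t s : ∀ (M : Type) [SetStr M], (Fin n → M) → M} [UV t] [UV s] :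
    UDf (fun M _ v => IsIdeal (t M v) (s M v)) :=
  IsIdeal_uu.comp2 (R := fun _ _ a b => IsIdeal a b) t s

theorem IsRestr_uu : UDf (fun M _ (w : Fin 3 → M) => IsRestr (w 0) (w 1) (w 2)) := by
  unfold IsRestr; infer_instance

instance {n : ℕ} {t s u : ∀ (M : Type) [SetStr M], (Fin n → M) → M} [UV t] [UV s] [UV u] :
    UDf (fun M _ v => IsRestr (t M v) (s M v) (u M v)) :=
  IsRestr_uu.comp3 (R := fun _ _ a b c => IsRestr a b c) t s u

theorem Answers_uu : UDf (fun M _ (w : Fin 4 → M) => Answers (w 0) (w 1) (w 2) (w 3)) := by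
  unfold Answers; infer_instance

instance {n : ℕ} {t s u x : ∀ (M : Type) [SetStr M], (Fin n → M) → M} [UV t] [UV s] [UV u] [UV x] :
    UDf (fun M _ v => Answers (t M v) (s M v) (u M v) (x M v)) :=
  Answers_uu.comp4 (R := fun _ _ a b c d => Answers a b c d) t s u x

theorem IsPlay_uu : UDf (fun M _ (w : Fin 4 → M) => IsPlay (w 0) (w 1) (w 2) (w 3)) := by
  unfold IsPlay IsCurrent; infer_instance

instance {n : ℕ} {t s u x : ∀ (M : Type) [SetStr M], (Fin n → M) → M} [UV t] [UV s] [UV u] [UV x] :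
    UDf (fun M _ v => IsPlay (t M v) (s M v) (u M v) (x M v)) :=
  IsPlay_uu.comp4 (R := fun _ _ a b c d => IsPlay a b c d) t s u x

theorem IsWinning_uu : UDf (fun M _ (w : Fin 4 → M) => IsWinning (w 0) (w 1) (w 2) (w 3)) := by
  unfold IsWinning IsCurrent; infer_instance

instance {n : ℕ} {t s u x : ∀ (M : Type) [SetStr M], (Fin n → M) → M} [UV t] [UV s] [UV u] [UV x] :
    UDf (fun M _ v => IsWinning (t M v) (s M v) (u M v) (x M v)) :=
  IsWinning_uu.comp4 (R := fun _ _ a b c d => IsWinning a b c d) t s u x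

theorem IdealDependence_u : UDf (fun M _ (w : Fin 0 → M) => IdealDependence M) := by
  unfold IdealDependence
  infer_instance

end SW.CC
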