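import Pool.Agent.H12.MA.WO
import Pool.Agent.H35.MA.ACF
import Pool.Agent.H35.MA.ACX
import Pool.Agent.H31.CC.AVN
import Pool.Agent.H31.CC.AVO
import Pool.Agent.H31.CC.CHS
import Pool.Agent.H31.CC.DIR
import Pool.Agent.H31.CC.FUN
import Pool.Agent.H31.CC.HGF
import Pool.Agent.H31.CC.MSF
import Pool.Agent.H31.CC.MSN
import Pool.Agent.H31.CC.MSR
import Pool.Agent.H31.CC.REG
import Pool.Agent.H31.CC.SBN
import Pool.Agent.H31.CC.SMN
import Pool.Agent.H36.CC.BID
import Pool.Agent.H36.CC.JID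
import Pool.Agent.H36.CC.LSM
import Pool.Agent.H45.CC.PLF
import Pool.Agent.H46.CC.DIST
import Pool.Agent.H46.CC.NOG
import Pool.Agent.H46.CC.WBD
import Pool.Agent.H65.CC.CHU
import Pool.Agent.H65.CC.ENUM
import Pool.Agent.H97.CC.IND
import Pool.Agent.H97.CC.LIN
import Pool.Agent.H97.CC.SMA
import Pool.Agent.H97.CC.SMB
import Pool.Agent.H94.CC.CATCH
import Pool.Agent.H94.CC.CTN
import Pool.Agent.H94.CC.NOW
import Pool.Agent.H94.CC.Final
import Pool.Agent.H94.CC.Sent

/-!
All modules of project CC together.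
-/

set_option linter.unusedVariables false
set_option synthInstance.maxSize 100000

namespace SW.CC

theorem t_acf : ACFStmt := ma_acf
theorem t_wo : WOStmt := ma_wo t_acf
theorem t_acx : ACXStmt := ma_acx t_wo
theorem t_chs : CHSStmt := cc_chs t_acf
theorem t_enum : ENUMStmt := cc_enum
theorem t_well : WELLStmt := cc_well t_enum t_acf
theorem t_msf : MSFStmt := cc_msf
theorem t_sma : SMAStmt := cc_sma t_msf
theorem t_smb : SMBStmt := cc_smb t_sma t_chs t_well
theorem t_lin : LINStmt := cc_lin t_enum t_smb t_acf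
theorem t_prj : PRJStmt := cc_prj t_lin t_smb t_msf
theorem t_kj : KJStmt := cc_kj t_lin t_smb t_msf
theorem t_ind : INDStmt := cc_ind t_kj t_smb t_msf
theorem t_ksm : KSMStmt := cc_ksm t_prj t_chs
theorem t_exd : EXDStmt := cc_exd t_ksm
theorem t_chu : CHUStmt := cc_chu t_chs
theorem t_chain : CHAINStmt := cc_chain t_chu t_ksm t_acf
theorem t_dist : DISTStmt := cc_dist t_chain
theorem t_catch : CATCHStmt := cc_catch t_chain t_exd t_ksm
theorem t_avo : AVOStmt := cc_avo t_chs t_sma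
theorem t_fun : FUNStmt := cc_fun t_dist
theorem t_sbn : SBNStmt := cc_sbn t_fun
theorem t_msn : MSNStmt := cc_msn t_sbn t_fun
theorem t_smn : SMNStmt := cc_smn t_smb t_msn t_fun
theorem t_hgf : HGFStmt := cc_hgf
theorem t_dir : DIRStmt := cc_dir t_exd t_ksm t_smb
theorem t_avn : AVNStmt := cc_avn t_smn t_dir t_avo t_hgf
theorem t_ctn : CTNStmt := cc_ctn t_catch t_sbn t_hgf
theorem t_msr : MSRStmt := cc_msr t_msf
theorem t_reg : REGStmt := cc_reg t_sma
theorem t_bid : BIDStmt := cc_bid t_sma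
theorem t_jid : JIDStmt := cc_jid t_chs t_sma
theorem t_plf : PLFStmt := cc_plf
theorem t_wbd : WBDStmt := cc_wbd t_plf t_msf
theorem t_now : NOWStmt := cc_now t_plf t_sma
theorem t_nog : NOGStmt := cc_nog t_plf
theorem t_lsm : LSMStmt := cc_lsm

/-- every countable model of ZFC with a measurable cardinal has a generic extension with the
dependence phenomenon -/
theorem t_gen (M : Type) [SetStr M] [ZFC M] [Countable M] (h : ∃ k U : M, IsMeasure k U) :
    ∃ (N : Type) (_ : SetStr N) (_ : ZFC N) (i : M → N), IsGenExt i ∧ IdealDependence N := by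
  obtain ⟨κ, U, hU⟩ := h
  exact final_g t_acx t_ind t_msn t_avn t_ctn t_msr t_reg t_bid t_jid t_wbd t_now t_nog M κ U hU

/-- the consistency theorem -/
theorem t_con (M : Type) [SetStr M] [ZFC M] (h : ∃ k U : M, IsMeasure k U) :
    ∃ (N : Type) (_ : SetStr N) (_ : ZFC N), IdealDependence N := by
  obtain ⟨M', _, _, hc, h'⟩ := t_lsm M h
  obtain ⟨N, a, b, _, _, hN⟩ := t_gen M' h'
  exact ⟨N, a, b, hN⟩

/-- the sentence -/
theorem t_sentence : ∃ φ : Fml 0, ∀ (N : Type) [SetStr N],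
    (Sat (M := N) φ Fin.elim0 ↔ IdealDependence N) := by
  obtain ⟨φ, hφ⟩ := IdealDependence_u.out
  exact ⟨φ, fun N _ => (hφ N Fin.elim0).symm⟩

end SW.CC
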