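import Pool.Agent.H13.MA.Stmts
import Pool.Agent.H94.CC.Core

/-!
Definitions for the proof of the consistency of dependence on the ideal in cut and choose games:
measures, small sets, independent families, the poset, the ideal.
-/

set_option linter.unusedVariables false
set_option linter.unusedSectionVars false
set_option synthInstance.maxSize 100000

namespace SW.CC

section
variable {M : Type} [SetStr M] [ZF M]

/-! ### components of pairs -/

/-- the first component of a pair -/
noncomputable def fst (z : M) : M := the (fun a => ∃ b : M, z = opair a b)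

/-- the second component of a pair -/
noncomputable def snd (z : M) : M := the (fun b => ∃ a : M, z = opair a b)

theorem fst_df : Fn1 (fun z : M => fst z) := by unfold fst; infer_instance

theorem snd_df : Fn1 (fun z : M => snd z) := by unfold snd; infer_instance

instance {n : ℕ} {t : (Fin n → M) → M} [ht : DfT t] : DfT (fun v => fst (t v)) :=
  fst_df.comp1 ht

instance {n : ℕ} {t : (Fin n → M) → M} [ht : DfT t] : DfT (fun v => snd (t v)) :=
  snd_df.comp1 ht

@[simp] theorem fst_opair (a b : M) : fst (opair a b) = a :=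
  the_eq ⟨b, rfl⟩ fun z ⟨b', h⟩ => (opair_inj.1 h).1.symm

@[simp] theorem snd_opair (a b : M) : snd (opair a b) = b :=
  the_eq ⟨a, rfl⟩ fun z ⟨a', h⟩ => (opair_inj.1 h).2.symm

/-! ### measures and small sets -/

/-- `U` is a nonprincipal `κ`-complete ultrafilter on `κ`, `κ` uncountable -/
structure Meas (κ U : M) : Prop where
  ord : Ord κ
  om : E SW.om κ
  sub : ∀ {X : M}, E X U → Sub X κ
  up : ∀ {X Y : M}, E X U → Sub X Y → Sub Y κ → E Y U
  ult : ∀ {X : M}, Sub X κ → E X U ∨ E (diff κ X) U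
  np : ∀ {X a : M}, Sub X (sing a) → ¬ E X U
  cmp : ∀ {v : M} (f : M → M), Fn1 f → E v κ → (∀ x, E x v → E (f x) U) →
    E (sep κ (fun z => ∀ x : M, E x v → E z (f x))) U

/-- `X` is small (of cardinality below `κ`): every covering of `κ` by sets indexed by `X` has a
member in `U` -/
def Small (κ U X : M) : Prop := ∀ R : M, (∀ a : M, E a κ → ∃ x : M, E x X ∧ E (opair a x) R) →
  ∃ x : M, E x X ∧ E (sep κ (fun a => E (opair a x) R)) U

theorem Small_df : Cl3 (fun κ U X : M => Small κ U X) := by unfold Small; infer_instance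

instance {n : ℕ} {t s u : (Fin n → M) → M} [ht : DfT t] [hs : DfT s] [hu : DfT u] :
    Df (fun v => Small (t v) (s v) (u v)) := Small_df.comp3 ht hs hu

/-- `f` is a bijection of `v` onto `X` -/
def Bij (v X f : M) : Prop := (∀ i, E i v → E (app f i) X) ∧
  (∀ i j, E i v → E j v → app f i = app f j → i = j) ∧
  ∀ y, E y X → ∃ i, E i v ∧ y = app f i

theorem Bij_df : Cl3 (fun v X f : M => Bij v X f) := by unfold Bij; infer_instance

instance {n : ℕ} {t s u : (Fin n → M) → M} [ht : DfT t] [hs : DfT s] [hu : DfT u] :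
    Df (fun v => Bij (t v) (s v) (u v)) := Bij_df.comp3 ht hs hu

/-- `A` (a set of pairs `(i, ξ)`) is a family of subsets of `κ`, indexed by the subsets of `κ`,
which is independent in a strong sense -/
def Indep (κ U A : M) : Prop := ∀ S S1 a : M, Small κ U S → Sub S (pow κ) → Sub S1 S → E a κ →
  ∃ x, E x κ ∧ ¬ E x a ∧ ∀ i, E i S → (E (opair i x) A ↔ E i S1)

/-- `x` belongs to the set coded by `e`: for all pairs `(i, b)` in `e`, `x` is in the set with
index `i` exactly if `b = 1` -/
def InEE (A e x : M) : Prop := ∀ i b : M, E (opair i b) e → (E (opair i x) A ↔ b = sing emp)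

theorem InEE_df : Cl3 (fun A e x : M => InEE A e x) := by unfold InEE; infer_instance

instance {n : ℕ} {t s u : (Fin n → M) → M} [ht : DfT t] [hs : DfT s] [hu : DfT u] :
    Df (fun v => InEE (t v) (s v) (u v)) := InEE_df.comp3 ht hs hu

/-! ### the poset -/

/-- from `(a, F)` to `(a', F')`: the new members `e` of `F'` have distinct representatives, which
are new elements of `a'` in the domain of `e` (the set `r` is a set of pairs
`(e, representative)`) -/
def SDR (a F a' F' : M) : Prop := ∃ r : M,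
  (∀ e x : M, E (opair e x) r → (E e F' ∧ ¬ E e F) ∧ (E x a' ∧ ¬ E x a) ∧
    ∃ b : M, E (opair x b) e) ∧
  (∀ e : M, E e F' → ¬ E e F → ∃ x : M, E (opair e x) r) ∧
  ∀ e e' x : M, E (opair e x) r → E (opair e' x) r → e = e'

theorem SDR_df : Df (fun v : Fin 4 → M => SDR (v 0) (v 1) (v 2) (v 3)) := by
  unfold SDR; infer_instance

instance {n : ℕ} {t s u x : (Fin n → M) → M} [ht : DfT t] [hs : DfT s] [hu : DfT u]
    [hx : DfT x] : Df (fun v => SDR (t v) (s v) (u v) (x v)) :=
  SDR_df.comp4 (R := fun a b c d => SDR a b c d) ht hs hu hx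

/-- the order: `p` is stronger than `q` -/
def CLe (p q : M) : Prop := Sub (fst q) (fst p) ∧ Sub (snd q) (snd p) ∧
  SDR (fst q) (snd q) (fst p) (snd p)

theorem CLe_df : Cl2 (fun p q : M => CLe p q) := by unfold CLe; infer_instance

instance {n : ℕ} {t s : (Fin n → M) → M} [ht : DfT t] [hs : DfT s] :
    Df (fun v => CLe (t v) (s v)) := CLe_df.comp2 ht hs

/-- conditions: pairs `(a, F)` with `a` a set of at most `κ` subsets of `κ`, `F` a set of subsets
of `a × 2` with distinct representatives in `a` -/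
def Cnd (κ p : M) : Prop := ∃ a F : M, p = opair a F ∧ Sub a (pow κ) ∧ Img κ a ∧
  (∀ e : M, E e F → Sub e (prod a two)) ∧ SDR emp emp a F

theorem Cnd_df : Cl2 (fun κ p : M => Cnd κ p) := by unfold Cnd two; infer_instance

instance {n : ℕ} {t s : (Fin n → M) → M} [ht : DfT t] [hs : DfT s] :
    Df (fun v => Cnd (t v) (s v)) := Cnd_df.comp2 ht hs

/-- the set of conditions -/
noncomputable def CP (κ : M) : M :=
  sep (prod (pow (pow κ)) (pow (pow (prod (pow κ) two)))) (fun p => Cnd κ p)

theorem CP_df : Fn1 (fun κ : M => CP κ) := by unfold CP two; infer_instance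

instance {n : ℕ} {t : (Fin n → M) → M} [ht : DfT t] : DfT (fun v => CP (t v)) :=
  CP_df.comp1 ht

theorem mem_CP {κ p : M} : E p (CP κ) ↔ Cnd κ p := by
  unfold CP
  rw [mem_sep]
  refine ⟨fun h => h.2, fun h => ⟨?_, h⟩⟩
  obtain ⟨a, F, rfl, h1, h2, h3, h4⟩ := h
  rw [mem_prod, mem_pow, mem_pow]
  refine ⟨h1, fun e he => ?_⟩
  rw [mem_pow]
  intro z hz
  obtain ⟨x, y, hx, hy, rfl⟩ := mem_prod'.1 (h3 e he z hz)
  exact mem_prod.2 ⟨h1 x hx, hy⟩

theorem mem_CP' {κ a F : M} : E (opair a F) (CP κ) ↔ Sub a (pow κ) ∧ Img κ a ∧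
    (∀ e : M, E e F → Sub e (prod a two)) ∧ SDR emp emp a F := by
  rw [mem_CP]
  constructor
  · rintro ⟨a', F', h, h1⟩
    obtain ⟨rfl, rfl⟩ := opair_inj.1 h
    exact h1
  · exact fun h => ⟨a, F, rfl, h⟩

theorem CP_pair {κ p : M} (h : E p (CP κ)) : p = opair (fst p) (snd p) := by
  obtain ⟨a, F, rfl, _⟩ := mem_CP.1 h
  simp

@[simp] theorem CLe_opair {a F b H : M} : CLe (opair a F) (opair b H) ↔
    Sub b a ∧ Sub H F ∧ SDR b H a F := by
  unfold CLe
  simp

theorem SDR.refl (a F : M) : SDR a F a F :=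
  ⟨emp, fun e x h => absurd h (not_mem_emp _), fun e h h' => absurd h h',
    fun e e' x h => absurd h (not_mem_emp _)⟩

theorem SDR.trans {a F b H c K : M} (h1 : SDR a F b H) (h2 : SDR b H c K)
    (hab : Sub a b) (hbc : Sub b c) (hFH : Sub F H) (hHK : Sub H K) : SDR a F c K := by
  obtain ⟨r, r1, r2, r3⟩ := h1
  obtain ⟨s, s1, s2, s3⟩ := h2
  refine ⟨bun r s, fun e x h => ?_, fun e h h' => ?_, fun e e' x h h' => ?_⟩
  · rw [mem_bun] at h
    rcases h with h | h
    · obtain ⟨⟨g1, g2⟩, ⟨g3, g4⟩, g5⟩ := r1 e x h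
      exact ⟨⟨hHK _ g1, g2⟩, ⟨hbc _ g3, g4⟩, g5⟩
    · obtain ⟨⟨g1, g2⟩, ⟨g3, g4⟩, g5⟩ := s1 e x h
      exact ⟨⟨g1, fun hh => g2 (hFH _ hh)⟩, ⟨g3, fun hh => g4 (hab _ hh)⟩, g5⟩
  · by_cases hH : E e H
    · obtain ⟨x, hx⟩ := r2 e hH h'
      exact ⟨x, mem_bun.2 (Or.inl hx)⟩
    · obtain ⟨x, hx⟩ := s2 e h hH
      exact ⟨x, mem_bun.2 (Or.inr hx)⟩
  · rw [mem_bun] at h h'
    rcases h with h | h
    · rcases h' with h' | h'
      · exact r3 e e' x h h'
      · exact absurd (r1 e x h).2.1.1 (s1 e' x h').2.1.2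
    · rcases h' with h' | h'
      · exact absurd (r1 e' x h').2.1.1 (s1 e x h).2.1.2
      · exact s3 e e' x h h'

theorem CLe.refl (p : M) : CLe p p := ⟨Sub.refl _, Sub.refl _, SDR.refl _ _⟩

theorem CLe.trans {p q r : M} (h1 : CLe p q) (h2 : CLe q r) : CLe p r :=
  ⟨h2.1.trans h1.1, h2.2.1.trans h1.2.1, h2.2.2.trans h1.2.2 h2.1 h1.1 h2.2.1 h1.2.1⟩

theorem Img_emp (κ : M) : Img κ emp := ⟨emp, fun y hy => absurd hy (not_mem_emp y)⟩

theorem CP_one (κ : M) : E (opair emp emp) (CP κ) := by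
  rw [mem_CP']
  exact ⟨fun z hz => absurd hz (not_mem_emp z), Img_emp κ, fun e he => absurd he (not_mem_emp e),
    SDR.refl _ _⟩

/-- a stronger pair with the right shape is a condition -/
theorem CP_of_le {κ a F b H : M} (hq : E (opair b H) (CP κ)) (h : CLe (opair a F) (opair b H))
    (h1 : Sub a (pow κ)) (h2 : Img κ a) (h3 : ∀ e : M, E e F → Sub e (prod a two)) :
    E (opair a F) (CP κ) := by
  rw [mem_CP'] at hq ⊢
  rw [CLe_opair] at h
  refine ⟨h1, h2, h3, hq.2.2.2.trans h.2.2 ?_ h.1 ?_ h.2.1⟩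
  · exact fun z hz => absurd hz (not_mem_emp z)
  · exact fun z hz => absurd hz (not_mem_emp z)

/-- the notion of forcing -/
noncomputable def CF (κ : M) : FPoset M where
  P := CP κ
  le := fun p q => CLe p q
  one := opair emp emp
  le_df := inferInstance
  one_mem := CP_one κ
  refl := fun p _ => CLe.refl p
  trans := fun p q r _ _ _ h1 h2 => h1.trans h2
  le_one := fun p hp => by
    obtain ⟨a, F, rfl, h1, h2, h3, h4⟩ := mem_CP.1 hp
    rw [CLe_opair]
    exact ⟨fun z hz => absurd hz (not_mem_emp z), fun z hz => absurd hz (not_mem_emp z), h4⟩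

/-- the stage `j` of an increasing sequence of conditions: the componentwise union of `p0` and
of all `g i`, `i ∈ j` -/
noncomputable def UP (p0 j : M) (g : M → M) : M :=
  opair (bun (fst p0) (sUn (img j (fun i => fst (g i)))))
    (bun (snd p0) (sUn (img j (fun i => snd (g i)))))

instance DfT.UP {n : ℕ} {t s : (Fin n → M) → M} {g : M → (Fin n → M) → M} [ht : DfT t]
    [hs : DfT s] [hg : DfT (fun w : Fin (n + 1) → M => g (w 0) (fun i => w i.succ))] :
    DfT (fun v => UP (t v) (s v) (fun x => g x v)) := by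
  unfold CC.UP
  have _ : ∀ (k : ℕ) (r : Fin n → Fin k) (u : (Fin k → M) → M) [DfT u],
      DfT (fun v => g (u v) (fun i => v (r i))) := fun k r u hu => hg.comp1v hu
  infer_instance

/-! ### the ideals -/

/-- the bounded subsets of `κ` -/
noncomputable def BD (κ : M) : M := sep (pow κ) (fun X => ∃ b : M, E b κ ∧ Sub X b)

theorem mem_BD {κ X : M} : E X (BD κ) ↔ Sub X κ ∧ ∃ b : M, E b κ ∧ Sub X b := by
  unfold BD
  rw [mem_sep, mem_pow]

/-- the ideal generated by the bounded sets and the sets coded by the members of `H` -/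
noncomputable def JJ (κ U A H : M) : M := sep (pow κ) (fun X => ∃ a F : M, E a κ ∧ Sub F H ∧
  Small κ U F ∧ ∀ x : M, E x X → E x a ∨ ∃ e : M, E e F ∧ InEE A e x)

theorem mem_JJ {κ U A H X : M} : E X (JJ κ U A H) ↔ Sub X κ ∧ ∃ a F : M, E a κ ∧ Sub F H ∧
    Small κ U F ∧ ∀ x : M, E x X → E x a ∨ ∃ e : M, E e F ∧ InEE A e x := by
  unfold JJ
  rw [mem_sep, mem_pow]

/-- the first property of the generic family `H`: the ideal is proper -/
def Avoid (κ U A H : M) : Prop := ∀ F a : M, Sub F H → Small κ U F → E a κ →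
  ∃ x, E x κ ∧ ¬ E x a ∧ ∀ e, E e F → ¬ InEE A e x

/-- the second property of the generic family `H`: it catches all functions on finite sequences
of subsets of `κ` -/
def Catch (κ H : M) : Prop := ∀ τ : M,
  (∀ n z, E n om → (∀ i, E i (suc n) → E (app z i) (pow κ)) →
    E (app τ (gr (suc n) (fun i => app z i))) two) →
  ∃ z, (∀ n, E n om → E (app z n) (pow κ)) ∧
    E (img om (fun n => opair (app z n) (app τ (gr (suc n) (fun i => app z i))))) H

end

section
variable {M : Type} [SetStr M] [ZF M]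

/-- the generic family of the extension -/
noncomputable def HG (κ : M) (G : M → Prop) [ZF (Ext (CF κ) G)] : Ext (CF κ) G :=
  sUn (img (mk (CF κ) G (Gnm (CF κ))) (fun p => snd p))

end

end SW.CC
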